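import Pool.Agent.Helper44q.Q.Defs

/-! Embedding problems over `k`: definitions. -/

set_option autoImplicit false

namespace Pool.Agent.Helper44q.E

/-- the absolute Galois group of `k` -/
abbrev Gk (k : Type) [Field k] : Type := AlgebraicClosure k ≃ₐ[k] AlgebraicClosure k

section

variable {k Γ : Type} [Field k] [Group Γ] {L : IntermediateField k (AlgebraicClosure k)}

/-- The homomorphism `θ` from the absolute Galois group of `k` to `Γ` is a (weak) solution of the
embedding problem `π : Γ → Gal(L/k)`: it is trivial on the Galois group of a finite extension of `k`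
and `π (θ σ)` is the restriction of `σ` to `L`. -/
def IsSolution (π : Γ →* (L ≃ₐ[k] L)) (θ : Gk k →* Γ) : Prop :=
  (∃ E : IntermediateField k (AlgebraicClosure k), FiniteDimensional k E ∧
    E.fixingSubgroup ≤ θ.ker) ∧
  ∀ (σ : Gk k) (z : L), σ z = π (θ σ) z

/-- The embedding problem has a (weak) solution. -/
def WeaklySolvable (π : Γ →* (L ≃ₐ[k] L)) : Prop :=
  ∃ θ : Gk k →* Γ, IsSolution π θ

/-- The embedding problem has a proper solution: `Γ` is the group of a Galois extension of `k` which
contains `L`, and `π` is the restriction to `L`. -/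
def ProperlySolvable (π : Γ →* (L ≃ₐ[k] L)) : Prop :=
  ∃ θ : Gk k →* Γ, IsSolution π θ ∧ Function.Surjective θ

/-- The embedding problem has a proper solution over `k` which remains proper over `L'`: the Galois
group of `L'` is mapped onto the kernel. -/
def SolvableBeyond (π : Γ →* (L ≃ₐ[k] L)) (L' : IntermediateField k (AlgebraicClosure k)) : Prop :=
  ∃ θ : Gk k →* Γ, IsSolution π θ ∧ Function.Surjective θ ∧
    ∀ g ∈ π.ker, ∃ σ : Gk k, (∀ z ∈ L', σ z = z) ∧ θ σ = g

end

section

variable {Γ H : Type} [Group Γ] [Group H]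

/-- The fibre power of `π : Γ → H`: the group of all `(x, h)`, `x` in `Γ^m`, `h` in `H`, such that all
coordinates of `x` are mapped to `h`. -/
def Fib (π : Γ →* H) (m : ℕ) : Subgroup ((Fin m → Γ) × H) where
  carrier := {x | ∀ i, π (x.1 i) = x.2}
  mul_mem' := fun {a b} ha hb i => by
    change π (a.1 i * b.1 i) = a.2 * b.2
    rw [map_mul, ha i, hb i]
  one_mem' := fun i => map_one π
  inv_mem' := fun {a} ha i => by
    change π (a.1 i)⁻¹ = a.2⁻¹
    rw [map_inv, ha i]

theorem mem_Fib {π : Γ →* H} {m : ℕ} {x : (Fin m → Γ) × H} : x ∈ Fib π m ↔ ∀ i, π (x.1 i) = x.2 :=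
  Iff.rfl

/-- the projection of the fibre power to `H` -/
def fibPr (π : Γ →* H) (m : ℕ) : Fib π m →* H := (MonoidHom.snd _ _).comp (Fib π m).subtype

end

end Pool.Agent.Helper44q.E
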