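import Pool.Agent.Helper44q.E.Defs

/-! Embedding problems: fibre powers and solutions over extensions. -/

set_option autoImplicit false

namespace Pool.Agent.Helper44q.E

open IntermediateField

section

variable {k Γ : Type} [Field k] [Group Γ] {L : IntermediateField k (AlgebraicClosure k)}

/-- the field of a proper solution -/
theorem exists_field [CharZero k] (θ : Gk k →* Γ) (hθ : Function.Surjective θ)
    (hE : ∃ E : IntermediateField k (AlgebraicClosure k), FiniteDimensional k E ∧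
      E.fixingSubgroup ≤ θ.ker) :
    ∃ (E : IntermediateField k (AlgebraicClosure k)) (φ : Γ ≃* (E ≃ₐ[k] E)),
      FiniteDimensional k E ∧ IsGalois k E ∧ (∀ (σ : Gk k) (z : E), σ z = φ (θ σ) z) ∧
      ∀ z, z ∈ E ↔ ∀ σ ∈ θ.ker, σ z = z := by
  obtain ⟨E₀, hfin, hE₀⟩ := hE
  have hA : IsGalois k (AlgebraicClosure k) := { }
  let E : IntermediateField k (AlgebraicClosure k) := fixedField θ.ker
  have hmem : ∀ z, z ∈ E ↔ ∀ σ ∈ θ.ker, σ z = z := fun z => mem_fixedField_iff _ _
  have hle : E ≤ E₀ := by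
    intro z hz
    rw [← InfiniteGalois.fixedField_fixingSubgroup E₀, mem_fixedField_iff]
    exact fun σ hσ => (hmem z).1 hz σ (hE₀ hσ)
  have hfE : FiniteDimensional k E :=
    FiniteDimensional.of_injective (inclusion hle).toLinearMap (inclusion hle).injective
  have hnor : Normal k E := by
    rw [IntermediateField.normal_iff_forall_map_le']
    rintro σ _ ⟨z, hz, rfl⟩
    rw [hmem]
    intro τ hτ
    have h1 : σ⁻¹ * τ * σ ∈ θ.ker := by
      rw [MonoidHom.mem_ker, map_mul, map_mul, (MonoidHom.mem_ker).1 hτ, mul_one, map_inv,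
        inv_mul_cancel]
    have h2 := (hmem z).1 hz _ h1
    change σ.symm (τ (σ z)) = z at h2
    rw [AlgEquiv.symm_apply_eq] at h2
    exact h2
  have hgal : IsGalois k E := { }
  let R : Gk k →* (E ≃ₐ[k] E) := AlgEquiv.restrictNormalHom E
  have hR : ∀ (σ : Gk k) (z : E), σ z = R σ z := fun σ z =>
    (AlgEquiv.restrictNormal_commutes σ E z).symm
  have hclosed : IsClosed (θ.ker : Set (Gk k)) := by
    apply Subgroup.isClosed_of_isOpen
    exact Subgroup.isOpen_mono hE₀ (fixingSubgroup_isOpen E₀)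
  have hker : θ.ker = R.ker := by
    have h1 : E.fixingSubgroup = θ.ker :=
      InfiniteGalois.fixingSubgroup_fixedField (⟨θ.ker, hclosed⟩ : ClosedSubgroup (Gk k))
    rw [← h1]
    exact (IntermediateField.restrictNormalHom_ker E).symm
  have hRs : Function.Surjective R := AlgEquiv.restrictNormalHom_surjective (AlgebraicClosure k)
  let f : Γ →* (E ≃ₐ[k] E) := θ.liftOfSurjective hθ ⟨R, hker.le⟩
  have hf : ∀ σ, f (θ σ) = R σ := fun σ =>
    MonoidHom.liftOfRightInverse_comp_apply θ _ (Function.rightInverse_surjInv hθ) ⟨R, hker.le⟩ σ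
  have hinj : Function.Injective f := by
    rw [injective_iff_map_eq_one]
    intro g hg
    obtain ⟨σ, rfl⟩ := hθ g
    rw [hf] at hg
    have : σ ∈ θ.ker := by rw [hker]; exact hg
    exact this
  have hsur : Function.Surjective f := by
    intro τ
    obtain ⟨σ, rfl⟩ := hRs τ
    exact ⟨θ σ, hf σ⟩
  refine ⟨E, MulEquiv.ofBijective f ⟨hinj, hsur⟩, hfE, hgal, fun σ z => ?_, hmem⟩
  rw [hR]
  congr 2
  exact (hf σ).symm

theorem IsSolution.trivial {π : Γ →* (L ≃ₐ[k] L)} {θ : Gk k →* Γ} (h : IsSolution π θ)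
    {σ : Gk k} (hσ : ∀ z ∈ L, σ z = z) : π (θ σ) = 1 := by
  apply AlgEquiv.ext
  intro z
  apply Subtype.ext
  rw [← h.2]
  exact hσ z z.2

theorem IsSolution.fix {π : Γ →* (L ≃ₐ[k] L)} {θ : Gk k →* Γ} (h : IsSolution π θ)
    {σ : Gk k} (hσ : π (θ σ) = 1) (z : AlgebraicClosure k) (hz : z ∈ L) : σ z = z := by
  have h1 := h.2 σ ⟨z, hz⟩
  rw [hσ] at h1
  exact h1

/-- independent solutions from a proper solution of the fibre power -/
theorem independent [CharZero k] {π : Γ →* (L ≃ₐ[k] L)} {r : ℕ}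
    (h : ProperlySolvable (fibPr π r)) :
    ∃ (E : Fin r → IntermediateField k (AlgebraicClosure k))
      (φ : ∀ i, Γ ≃* (E i ≃ₐ[k] E i)), (∀ i, FiniteDimensional k (E i) ∧ IsGalois k (E i) ∧
        L ≤ E i) ∧ (∀ i j, i ≠ j → E i ⊓ E j ≤ L) ∧
      ∀ i g (z : E i) (y : L), (z : AlgebraicClosure k) = y →
        (φ i g z : AlgebraicClosure k) = π g y := by
  classical
  have hA : IsGalois k (AlgebraicClosure k) := { }
  obtain ⟨θ, hθ, hs⟩ := h
  let c : Fin r → (Fib π r →* Γ) := fun i =>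
    (Pi.evalMonoidHom (fun _ : Fin r => Γ) i).comp ((MonoidHom.fst _ _).comp (Fib π r).subtype)
  have hc : ∀ i x, c i x = x.1.1 i := fun i x => rfl
  have hcs : ∀ i, Function.Surjective (c i) := fun i g =>
    ⟨⟨(fun _ => g, π g), fun _ => rfl⟩, rfl⟩
  have hcπ : ∀ i x, π (c i x) = fibPr π r x := fun i x => x.2 i
  have hsol : ∀ i, IsSolution π ((c i).comp θ) := by
    intro i
    refine ⟨?_, fun σ z => ?_⟩
    · obtain ⟨E, hE, hE'⟩ := hθ.1
      refine ⟨E, hE, fun σ hσ => ?_⟩
      have := hE' hσ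
      rw [MonoidHom.mem_ker] at this ⊢
      rw [MonoidHom.comp_apply, this, map_one]
    · rw [hθ.2, MonoidHom.comp_apply, hcπ]
  choose E φ hfin hgal hφ hmem using fun i =>
    exists_field ((c i).comp θ) ((hcs i).comp hs) (hsol i).1
  refine ⟨E, φ, fun i => ⟨hfin i, hgal i, fun z hz => ?_⟩, fun i j hij z hz => ?_,
    fun i g z y hzy => ?_⟩
  · rw [hmem]
    intro σ hσ
    exact (hsol i).fix (by rw [(MonoidHom.mem_ker).1 hσ, map_one]) z hz
  · rw [← InfiniteGalois.fixedField_fixingSubgroup L, mem_fixedField_iff]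
    intro σ hσ
    have h1 : fibPr π r (θ σ) = 1 := hθ.trivial fun z hz =>
      (IntermediateField.mem_fixingSubgroup_iff _ _).1 hσ z hz
    have h2 : (Pi.mulSingle i (c i (θ σ)), (1 : L ≃ₐ[k] L)) ∈ Fib π r := by
      intro l
      change π ((Pi.mulSingle i (c i (θ σ)) : Fin r → Γ) l) = 1
      by_cases hl : l = i
      · subst hl
        rw [Pi.mulSingle_eq_same, hcπ, h1]
      · rw [Pi.mulSingle_eq_of_ne hl, map_one]
    obtain ⟨τ, hτ⟩ := hs ⟨_, h2⟩
    have h3 : τ z = z := by
      refine (hmem j z).1 hz.2 τ ?_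
      rw [MonoidHom.mem_ker, MonoidHom.comp_apply, hτ, hc]
      exact Pi.mulSingle_eq_of_ne (Ne.symm hij) _
    have h4 : (τ⁻¹ * σ) z = z := by
      refine (hmem i z).1 hz.1 (τ⁻¹ * σ) ?_
      rw [MonoidHom.mem_ker, MonoidHom.comp_apply, map_mul, map_mul, map_inv, map_inv, hτ]
      have h5 : c i ⟨_, h2⟩ = c i (θ σ) := Pi.mulSingle_eq_same i _
      rw [h5, inv_mul_cancel]
    change τ.symm (σ z) = z at h4
    rw [AlgEquiv.symm_apply_eq, h3] at h4
    exact h4
  · obtain ⟨σ, hσ⟩ := ((hcs i).comp hs) g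
    have hσ' : ((c i).comp θ) σ = g := hσ
    rw [← hσ', ← hφ, hzy, (hsol i).2]

/-- the fibre powers are solvable if there are solutions which remain proper over any given
extension -/
theorem fib_of_beyond {π : Γ →* (L ≃ₐ[k] L)} [Normal k L] [FiniteDimensional k L]
    (h : ∀ L' : IntermediateField k (AlgebraicClosure k), FiniteDimensional k L' →
      SolvableBeyond π L') (m : ℕ) : ProperlySolvable (fibPr π m) := by
  induction m with
  | zero =>
    let R : Gk k →* (L ≃ₐ[k] L) := AlgEquiv.restrictNormalHom L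
    have hR : ∀ (σ : Gk k) (z : L), σ z = R σ z := fun σ z =>
      (AlgEquiv.restrictNormal_commutes σ L z).symm
    let θ : Gk k →* Fib π 0 :=
      { toFun := fun σ => ⟨(fun i => i.elim0, R σ), fun i => i.elim0⟩
        map_one' := Subtype.ext (Prod.ext (funext fun i => i.elim0) (map_one R))
        map_mul' := fun σ τ => Subtype.ext (Prod.ext (funext fun i => i.elim0) (map_mul R σ τ)) }
    refine ⟨θ, ⟨⟨L, inferInstance, fun σ hσ => ?_⟩, fun σ z => hR σ z⟩, fun x => ?_⟩
    · rw [MonoidHom.mem_ker]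
      refine Subtype.ext (Prod.ext (funext fun i => i.elim0) ?_)
      change R σ = 1
      apply AlgEquiv.ext
      intro z
      apply Subtype.ext
      rw [← hR]
      exact (IntermediateField.mem_fixingSubgroup_iff _ _).1 hσ z z.2
    · obtain ⟨σ, hσ⟩ := AlgEquiv.restrictNormalHom_surjective (F := k) (K₁ := L)
        (AlgebraicClosure k) x.1.2
      exact ⟨σ, Subtype.ext (Prod.ext (funext fun i => i.elim0) hσ)⟩
  | succ m ih =>
    obtain ⟨θ, hθ, hs⟩ := ih
    obtain ⟨E, hE, hEk⟩ := hθ.1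
    obtain ⟨θ', hθ', hs', hb⟩ := h (E ⊔ L) inferInstance
    obtain ⟨E', hE', hEk'⟩ := hθ'.1
    have hpr : ∀ σ, π (θ' σ) = fibPr π m (θ σ) := by
      intro σ
      apply AlgEquiv.ext
      intro z
      apply Subtype.ext
      rw [← hθ'.2, hθ.2]
    let Θ : Gk k →* Fib π (m + 1) :=
      { toFun := fun σ => ⟨(Fin.cons (θ' σ) (θ σ).1.1, (θ σ).1.2), fun i => by
          refine Fin.cases ?_ (fun j => ?_) i
          · exact hpr σ
          · exact (θ σ).2 j⟩
        map_one' := by
          refine Subtype.ext (Prod.ext (funext fun i => ?_) ?_)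
          · refine Fin.cases ?_ (fun j => ?_) i
            · change θ' 1 = 1
              rw [map_one]
            · change (θ 1).1.1 j = 1
              rw [map_one]; rfl
          · change (θ 1).1.2 = 1
            rw [map_one]; rfl
        map_mul' := fun σ τ => by
          refine Subtype.ext (Prod.ext (funext fun i => ?_) ?_)
          · refine Fin.cases ?_ (fun j => ?_) i
            · change θ' (σ * τ) = θ' σ * θ' τ
              rw [map_mul]
            · change (θ (σ * τ)).1.1 j = (θ σ).1.1 j * (θ τ).1.1 j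
              rw [map_mul]; rfl
          · change (θ (σ * τ)).1.2 = (θ σ).1.2 * (θ τ).1.2
            rw [map_mul]; rfl }
    refine ⟨Θ, ⟨⟨E ⊔ E', inferInstance, fun σ hσ => ?_⟩, fun σ z => hθ.2 σ z⟩, fun x => ?_⟩
    · have h1 : σ ∈ θ.ker := hEk ((IntermediateField.mem_fixingSubgroup_iff _ _).2 fun z hz =>
        (IntermediateField.mem_fixingSubgroup_iff _ _).1 hσ z (le_sup_left (a := E) hz))
      have h2 : σ ∈ θ'.ker := hEk' ((IntermediateField.mem_fixingSubgroup_iff _ _).2 fun z hz =>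
        (IntermediateField.mem_fixingSubgroup_iff _ _).1 hσ z (le_sup_right (a := E) hz))
      rw [MonoidHom.mem_ker] at h1 h2 ⊢
      refine Subtype.ext (Prod.ext (funext fun i => ?_) ?_)
      · refine Fin.cases ?_ (fun j => ?_) i
        · exact h2
        · change (θ σ).1.1 j = 1
          rw [h1]; rfl
      · change (θ σ).1.2 = 1
        rw [h1]; rfl
    · -- a preimage
      have hx : ((fun j : Fin m => x.1.1 j.succ, x.1.2) : (Fin m → Γ) × (L ≃ₐ[k] L)) ∈ Fib π m :=
        fun j => x.2 j.succ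
      obtain ⟨σ, hσ⟩ := hs ⟨_, hx⟩
      have h1 : (θ' σ)⁻¹ * x.1.1 0 ∈ π.ker := by
        rw [MonoidHom.mem_ker, map_mul, map_inv, hpr, hσ]
        have h2 : fibPr π m ⟨_, hx⟩ = x.1.2 := rfl
        rw [h2, x.2 0, inv_mul_cancel]
      obtain ⟨τ, hτ, hτ'⟩ := hb _ h1
      have h3 : θ τ = 1 := by
        have : τ ∈ θ.ker := hEk ((IntermediateField.mem_fixingSubgroup_iff _ _).2 fun z hz =>
          hτ z (le_sup_left (a := E) hz))
        exact this
      refine ⟨σ * τ, Subtype.ext (Prod.ext (funext fun i => ?_) ?_)⟩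
      · refine Fin.cases ?_ (fun j => ?_) i
        · change θ' (σ * τ) = x.1.1 0
          rw [map_mul, hτ', mul_inv_cancel_left]
        · change (θ (σ * τ)).1.1 j = x.1.1 j.succ
          rw [map_mul, h3, mul_one, hσ]
      · change (θ (σ * τ)).1.2 = x.1.2
        rw [map_mul, h3, mul_one, hσ]

end

end Pool.Agent.Helper44q.E
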