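import Pool.Agent.Helper44q.E.Main

/-! Unconditional cases, and the equivalence with split embedding problems. -/

set_option autoImplicit false

namespace Pool.Agent.Helper44q.E

open IntermediateField AlgebraicGeometry CategoryTheory W560.HP
open Pool.Agent.TH178.HI (HasFunctionField)
open Pool.Agent.Y742.HC (DensePoints)
open Pool.Agent.Helper44q.Q (HilbertType inv FinGen)
open Pool.Agent.TH444.TW (Cls)
open Pool.Agent.N600.UK (Univ)
open Pool.Agent.H391R2.T4 (RegSol)

section

variable {k Γ : Type} [Field k] [Group Γ] {L : IntermediateField k (AlgebraicClosure k)}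
  {K : Type} [Field K] [Algebra k K] [Algebra L K] [IsScalarTower k L K]

theorem regularOver_cls [CharZero k] [Finite Γ] [FiniteDimensional k L] [IsGalois k L]
    {π : Γ →* (L ≃ₐ[k] L)} (hπ : Cls k π) : RegularOver π (RatFunc k) := by
  have h1 : RegSol k L Γ (((MulEquiv.refl (L ≃ₐ[k] L)).symm).toMonoidHom.comp π) :=
    hπ.rsk k L (MulEquiv.refl _)
  have h2 : ((MulEquiv.refl (L ≃ₐ[k] L)).symm).toMonoidHom.comp π = π :=
    MonoidHom.ext fun _ => rfl
  rw [h2] at h1
  exact regularOver_of_regSol h1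

theorem regularOver_univ [CharZero k] [FiniteDimensional k L] [IsGalois k L]
    {π : Γ →* (L ≃ₐ[k] L)} (hπ : Function.Surjective π) {T : Type} [Group T] (hT : Univ T)
    (hN : Nonempty (π.ker ≃* T)) : RegularOver π (RatFunc k) :=
  regularOver_of_regSol (hT.reg k L Γ π hπ hN)

/-- abelian kernels -/
theorem hilbertType_abelian [CharZero k]
    (hk : ∃ S : Finset k, IntermediateField.adjoin ℚ (S : Set k) = ⊤) [Finite Γ]
    [FiniteDimensional k L] [IsGalois k L] {π : Γ →* (L ≃ₐ[k] L)} {ρ : Γ →* (K ≃ₐ[k] K)}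
    (h : IsSemilinear π ρ) (hw : WeaklySolvable π)
    (hab : ∀ x ∈ π.ker, ∀ y ∈ π.ker, x * y = y * x) : HilbertType k (inv ρ) := by
  refine hilbertType_of_weak hk h hw fun E _ _ r s hs => ?_
  have hfin : Finite (Pull π r) := inferInstance
  have hmem : ∀ x : Pull π r, π x.1.1 = r x.1.2 := fun x => x.2
  have hpr : ∀ x : Pull π r, pullPr π r x = x.1.2 := fun x => rfl
  refine regularOver_cls (Cls.abelian (pullPr π r) s hs inferInstance fun x y hx hy => ?_)
  rw [hpr] at hx hy
  have hx' : x.1.1 ∈ π.ker := by rw [MonoidHom.mem_ker, hmem, hx, map_one]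
  have hy' : y.1.1 ∈ π.ker := by rw [MonoidHom.mem_ker, hmem, hy, map_one]
  refine Subtype.ext (Prod.ext (hab _ hx' _ hy') ?_)
  change x.1.2 * y.1.2 = y.1.2 * x.1.2
  rw [hx, hy]

end

/-- All finite split embedding problems over `k` have proper solutions. -/
def SplitSolvable (k : Type) [Field k] : Prop :=
  ∀ (L : IntermediateField k (AlgebraicClosure k)) [FiniteDimensional k L] [IsGalois k L]
    (Γ : Type) [Group Γ] [Finite Γ] (π : Γ →* (L ≃ₐ[k] L)) (s : (L ≃ₐ[k] L) →* Γ),
    (∀ x, π (s x) = x) → ProperlySolvable π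

theorem hilbertType_of_split {k : Type} [Field k] [CharZero k]
    (hk : ∃ S : Finset k, IntermediateField.adjoin ℚ (S : Set k) = ⊤) (H : SplitSolvable k)
    {Γ : Type} [Group Γ] [Finite Γ] {L : IntermediateField k (AlgebraicClosure k)}
    [FiniteDimensional k L] [IsGalois k L] {K : Type} [Field K] [Algebra k K] [Algebra L K]
    [IsScalarTower k L K] {π : Γ →* (L ≃ₐ[k] L)} {ρ : Γ →* (K ≃ₐ[k] K)}
    (h : IsSemilinear π ρ) (hw : WeaklySolvable π) : HilbertType k (inv ρ) := by
  refine hilbertType_of_fib hk h fun m => ?_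
  obtain ⟨E, hE1, hE2, r, s, -, hs, hp, -⟩ := split_of_weak (weak_fib hw m)
  exact hp (H E _ (pullPr (fibPr π m) r) s hs)

/-- The question for the varieties in the theorem is equivalent to the solvability of all split
embedding problems. -/
theorem split_iff {k : Type} [Field k] [CharZero k]
    (hk : ∃ S : Finset k, IntermediateField.adjoin ℚ (S : Set k) = ⊤) :
    SplitSolvable k ↔
      ∀ (L : IntermediateField k (AlgebraicClosure k)) [FiniteDimensional k L] [IsGalois k L]
        (Γ : Type) [Group Γ] [Finite Γ] (π : Γ →* (L ≃ₐ[k] L)) (K : Type) [Field K] [Algebra k K]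
        [Algebra L K] [IsScalarTower k L K] (ρ : Γ →* (K ≃ₐ[k] K)), IsSemilinear π ρ →
        ∀ (X : Scheme.{0}) [IsIntegral X] (p : X ⟶ Spec (CommRingCat.of k))
          [LocallyOfFiniteType p], HasFunctionField k X p (inv ρ) → DensePoints k X p →
          HilbertProperty k X p := by
  constructor
  · intro H L _ _ Γ _ _ π K _ _ _ _ ρ h X _ p _ hX hd
    have hw : WeaklySolvable π := ((tfae_dense hk h X p hX).out 0 1).1 hd
    exact (hilbertType_of_split hk H h hw X p hX).1
  · intro H L _ _ Γ _ _ π s hs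
    obtain ⟨n, ρ, hρ⟩ := exists_semilinear π
    have hw : WeaklySolvable π := weak_of_section s hs
    have h1 : HilbertType k (inv ρ) := by
      intro X _ p _ hX
      have hd : DensePoints k X p := ((tfae_dense hk hρ X p hX).out 0 1).2 hw
      have h2 : HilbertProperty k X p := H L Γ π _ ρ hρ X p hX hd
      refine ⟨h2, fun hn q Y f hY h3 h4 h5 => ?_⟩
      refine h2 q Y f hY h3 h4 fun i hs => ?_
      have := hY i
      exact h5 i (Pool.Agent.W376.HP.nrm X (Y i) (f i) hn (h3 i) (h4 i) hs)
    have h2 : ∀ m : ℕ, ProperlySolvable (fibPr π m) := ((tfae_rel hk hρ).out 0 1).1 h1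
    exact of_fib_one (h2 1)

end Pool.Agent.Helper44q.E
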