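import Pool.Agent.Helper44q.E.Rst
import Pool.Agent.Helper44q.Q.Key

/-! The key lemma: an irreducible polynomial over the field of invariants has roots in at most one
of the twists by solutions which are linearly disjoint over the field of constants. -/

set_option autoImplicit false
set_option linter.unusedSectionVars false

namespace Pool.Agent.Helper44q.E

open IntermediateField
open Pool.Agent.Helper44q.Q (overK mem_overK mem_range_of_fixed inv mem_inv isGalois_inv finite_inv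
  Over exists_lift Diag)

section main

variable {k L K A Γ : Type} [Field k] [Field L] [Field K] [Field A] [Algebra k L] [Algebra k K]
  [Algebra L K] [IsScalarTower k L K] [Algebra K A] [Algebra k A]
  [IsScalarTower k K A] [Group Γ] [Finite Γ]

theorem exists_diag [IsAlgClosure K A] [CharZero K] (ρ : Γ →* (K ≃ₐ[k] K)) (π : Γ →* (L ≃ₐ[k] L))
    (hπ : ∀ g (z : L), ρ g (algebraMap L K z) = algebraMap L K (π g z))
    (hreg : ∀ a : K, IsAlgebraic k a → a ∈ Set.range (algebraMap L K))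
    (E : IntermediateField k A) [FiniteDimensional k E] [IsGalois k E]
    (φ : Γ ≃* (E ≃ₐ[k] E)) (hφ : ∀ g (z : E) (y : L), (z : A) = algebraMap K A (algebraMap L K y) →
      (φ g z : A) = algebraMap K A (algebraMap L K (π g y))) (g : Γ) :
    ∃ σ : A ≃ₐ[k] A, Over ρ σ g ∧ ∀ z : E, σ (z : A) = (φ g z : A) := by
  have hcl : IsAlgClosed A := IsAlgClosure.isAlgClosed K
  have halg : Algebra.IsAlgebraic K A := IsAlgClosure.isAlgebraic
  have : IsGalois K A := { }
  obtain ⟨σ₀, h0⟩ := exists_lift (A := A) ρ g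
  have hb : ∀ z : E, ((AlgEquiv.restrictNormalHom E σ₀ z : E) : A) = σ₀ z :=
    fun z => AlgEquiv.restrictNormal_commutes σ₀ E z
  obtain ⟨γ, hγ, hγ'⟩ := exists_over_one (K := K) hreg E
    (φ g * (AlgEquiv.restrictNormalHom E σ₀)⁻¹) (by
      intro z hz
      obtain ⟨y, hy⟩ := mem_con.1 hz
      obtain ⟨y', hy'⟩ : ∃ y', π g y' = y := (π g).surjective y
      have h1 : σ₀ (algebraMap K A (algebraMap L K y')) = z := by
        rw [h0, hπ, hy', hy]
      -- the preimage of `z`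
      have h2 : ∃ w : E, (w : A) = algebraMap K A (algebraMap L K y') := by
        refine ⟨(AlgEquiv.restrictNormalHom E σ₀)⁻¹ z, ?_⟩
        apply σ₀.injective
        rw [h1, ← hb]
        congr 1
        exact (AlgEquiv.restrictNormalHom E σ₀).apply_symm_apply z
      obtain ⟨w, hw⟩ := h2
      have h3 : AlgEquiv.restrictNormalHom E σ₀ w = z := by
        apply Subtype.ext
        rw [hb, hw, h1]
      have h4 : (AlgEquiv.restrictNormalHom E σ₀)⁻¹ z = w :=
        ((AlgEquiv.restrictNormalHom E σ₀).symm_apply_eq).2 h3.symm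
      rw [AlgEquiv.mul_apply, h4]
      apply Subtype.ext
      rw [hφ g w y' hw, hy', hy])
  refine ⟨γ * σ₀, fun a => ?_, fun z => ?_⟩
  · rw [AlgEquiv.mul_apply, h0, hγ]
  · rw [AlgEquiv.mul_apply, ← hb, hγ', AlgEquiv.mul_apply]
    congr 2
    exact (AlgEquiv.restrictNormalHom E σ₀).symm_apply_apply z

/-- the key lemma -/
theorem key [IsAlgClosure K A] [CharZero K] (ρ : Γ →* (K ≃ₐ[k] K)) (π : Γ →* (L ≃ₐ[k] L))
    (hπ : ∀ g (z : L), ρ g (algebraMap L K z) = algebraMap L K (π g z))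
    (hreg : ∀ a : K, IsAlgebraic k a → a ∈ Set.range (algebraMap L K))
    (E₁ E₂ : IntermediateField k A) [FiniteDimensional k E₁] [IsGalois k E₁]
    [FiniteDimensional k E₂] [IsGalois k E₂] (hE : E₁ ⊓ E₂ ≤ con k L K A)
    (hE₂ : con k L K A ≤ E₂)
    (φ₁ : Γ ≃* (E₁ ≃ₐ[k] E₁)) (φ₂ : Γ ≃* (E₂ ≃ₐ[k] E₂))
    (hφ₂ : ∀ g (z : E₂) (y : L), (z : A) = algebraMap K A (algebraMap L K y) →
      (φ₂ g z : A) = algebraMap K A (algebraMap L K (π g y)))
    (θ₁ θ₂ : A)
    (h1 : ∀ σ, Diag ρ E₁ φ₁ σ → σ θ₁ = θ₁) (h2 : ∀ σ, Diag ρ E₂ φ₂ σ → σ θ₂ = θ₂)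
    (hconj : IsConjRoot (inv ρ) θ₁ θ₂) : ∃ a ∈ inv ρ, algebraMap K A a = θ₂ := by
  have hcl : IsAlgClosed A := IsAlgClosure.isAlgClosed K
  have halg : Algebra.IsAlgebraic K A := IsAlgClosure.isAlgebraic
  have : IsGalois K A := { }
  have := isGalois_inv ρ
  have := finite_inv ρ
  have halg' : Algebra.IsAlgebraic (inv ρ) A := Algebra.IsAlgebraic.trans (inv ρ) K A
  have : IsAlgClosure (inv ρ) A := ⟨hcl, halg'⟩
  obtain ⟨τ, hτ⟩ := hconj.exists_algEquiv
  have htow : ∀ c : k, algebraMap (inv ρ) A (algebraMap k (inv ρ) c) = algebraMap k A c := by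
    intro c
    rw [IsScalarTower.algebraMap_apply (inv ρ) K A, IsScalarTower.algebraMap_apply k K A]
    rfl
  -- `τ : A → A` maps `θ₂` to `θ₁`
  let τ' : A ≃ₐ[k] A := AlgEquiv.ofRingEquiv (f := (τ : A ≃+* A)) (fun c => by
    change τ _ = _
    rw [← htow, τ.commutes])
  have hτ' : ∀ z, τ' z = τ z := fun z => rfl
  -- automorphisms over `K` and `E₁` fix `θ₂`
  have hA1 : ∀ σ ∈ overK k K A, (∀ z ∈ E₁, σ z = z) → σ θ₂ = θ₂ := by
    intro σ hσ hσ'
    have h3 : Diag ρ E₁ φ₁ (τ' * σ * τ'⁻¹) := by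
      have hK' : ∀ a : K, ∃ b : K, τ'.symm (algebraMap K A a) = algebraMap K A b := by
        intro a
        exact ⟨τ.symm.restrictNormal K a, (AlgEquiv.restrictNormal_commutes τ.symm K a).symm⟩
      have hE' : ∀ a ∈ E₁, τ'.symm a ∈ E₁ := by
        intro a ha
        have h3 : ((AlgEquiv.restrictNormalHom E₁ τ'.symm ⟨a, ha⟩ : E₁) : A) = τ'.symm a :=
          AlgEquiv.restrictNormal_commutes τ'.symm E₁ ⟨a, ha⟩
        rw [← h3]
        exact Subtype.mem _
      refine ⟨1, fun a => ?_, fun z => ?_⟩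
      · obtain ⟨b, hb⟩ := hK' a
        change τ' (σ (τ'.symm (algebraMap K A a))) = _
        rw [hb, hσ, ← hb, AlgEquiv.apply_symm_apply, map_one]
        rfl
      · change τ' (σ (τ'.symm (z : A))) = _
        rw [hσ' _ (hE' z z.2), AlgEquiv.apply_symm_apply, map_one]
        rfl
    have h4 := h1 _ h3
    change τ' (σ (τ'.symm θ₁)) = θ₁ at h4
    have h5 : τ'.symm θ₁ = θ₂ := by
      rw [AlgEquiv.symm_apply_eq, hτ', hτ]
    rw [h5] at h4
    rw [← h5, AlgEquiv.eq_symm_apply, h5, h4]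
  have hA2 : ∀ σ ∈ overK k K A, (∀ z ∈ E₂, σ z = z) → σ θ₂ = θ₂ := by
    intro σ hσ hσ'
    refine h2 σ ⟨1, fun a => ?_, fun z => ?_⟩
    · rw [hσ, map_one]; rfl
    · rw [hσ' z z.2, map_one]; rfl
  -- `θ₂` is in `K`
  have hθK : θ₂ ∈ Set.range (algebraMap K A) := by
    refine mem_range_of_fixed (k := k) fun γ hγ => ?_
    have hb : ∀ z : E₁, ((AlgEquiv.restrictNormalHom E₁ γ z : E₁) : A) = γ z :=
      fun z => AlgEquiv.restrictNormal_commutes γ E₁ z
    obtain ⟨γ₁, h3, h4, h5⟩ := exists_over_two (K := K) hreg E₁ E₂ hE hE₂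
      (AlgEquiv.restrictNormalHom E₁ γ) (fun z hz => by
        obtain ⟨y, hy⟩ := mem_con.1 hz
        apply Subtype.ext
        rw [hb, ← hy]
        exact hγ _)
    have h6 : (γ₁⁻¹ * γ) θ₂ = θ₂ := by
      refine hA1 _ (mul_mem (inv_mem h3) hγ) fun z hz => ?_
      change γ₁.symm (γ z) = z
      rw [AlgEquiv.symm_apply_eq]
      have h7 := h4 ⟨z, hz⟩
      rw [hb] at h7
      exact h7.symm
    have h7 : γ₁ θ₂ = θ₂ := hA2 _ h3 h5
    change γ₁.symm (γ θ₂) = θ₂ at h6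
    rw [AlgEquiv.symm_apply_eq, h7] at h6
    exact h6
  obtain ⟨a, rfl⟩ := hθK
  refine ⟨a, mem_inv.2 fun g => ?_, rfl⟩
  obtain ⟨σ, hσ, hσ'⟩ := exists_diag (A := A) ρ π hπ hreg E₂ φ₂ hφ₂ g
  have h3 := h2 σ ⟨g, hσ, hσ'⟩
  rw [hσ] at h3
  exact (algebraMap K A).injective h3

end main

end Pool.Agent.Helper44q.E
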