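import Pool.Agent.Helper44q.Q.Lin

/-! The twists of a semilinear action are rational. -/

set_option autoImplicit false

namespace Pool.Agent.Helper44q.E

open IntermediateField Matrix
open Pool.Agent.Helper44q.Q (Rat' yv lin coef coef1 coef1_C coef1_yv gen_E adjoin_yv algInd_yv yv_eq
  algInd_lin eqField mem_of_fixed alg_hom_ext_adjoin)

/-- Galois descent for semilinear representations, in coordinates -/
theorem speiser {k E G : Type} [Field k] [Field E] [Algebra k E] [Group G] [Finite G]
    (φ : G ≃* (E ≃ₐ[k] E)) (n : ℕ) (M : G → Matrix (Fin n) (Fin n) E) (h1 : M 1 = 1)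
    (hmul : ∀ g h i j, M (g * h) i j = ∑ l, M g i l * φ g (M h l j)) :
    ∃ W : Matrix (Fin n) (Fin n) E, IsUnit W ∧
      ∀ g i j, φ g (W i j) = ∑ l, M g l j * W i l := by
  classical
  have := Fintype.ofFinite G
  let Λ : Set (Fin n → E) := {w | ∀ g j, φ g (w j) = ∑ l, M g l j * w l}
  -- averages
  have hav : ∀ (e : E) (i : Fin n), (fun j => ∑ g : G, φ g e * φ g (M g⁻¹ i j)) ∈ Λ := by
    intro e i h j
    have h2 : ∀ g : G, φ h (φ g e * φ g (M g⁻¹ i j)) =
        ∑ l, M h l j * (φ (h * g) e * φ (h * g) (M (h * g)⁻¹ i l)) := by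
      intro g
      have h3 : φ h (φ g (M g⁻¹ i j)) = ∑ l, φ (h * g) (M (h * g)⁻¹ i l) * M h l j := by
        have h4 : M g⁻¹ i j = ∑ l, M (h * g)⁻¹ i l * φ (h * g)⁻¹ (M h l j) := by
          rw [← hmul]
          congr 2
          group
        have h5 : φ h (φ g (M g⁻¹ i j)) = φ (h * g) (M g⁻¹ i j) := by
          rw [map_mul]; rfl
        rw [h5, h4, map_sum]
        refine Finset.sum_congr rfl fun l _ => ?_
        rw [map_mul]
        congr 1
        rw [map_inv]
        exact (φ (h * g)).apply_symm_apply _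
      rw [map_mul, h3, Finset.mul_sum]
      refine Finset.sum_congr rfl fun l _ => ?_
      have h6 : φ h (φ g e) = φ (h * g) e := by rw [map_mul φ h g]; rfl
      rw [h6]
      ring
    beta_reduce
    rw [map_sum, Finset.sum_congr rfl (fun g _ => h2 g), Finset.sum_comm]
    refine Finset.sum_congr rfl fun l _ => ?_
    rw [← Finset.mul_sum]
    congr 1
    exact Fintype.sum_equiv (Equiv.mulLeft h) _ _ fun g => rfl
  have hspan : Submodule.span E Λ = ⊤ := by
    by_contra hne
    obtain ⟨f, hf0, hf⟩ := Submodule.exists_le_ker_of_lt_top _ (lt_top_iff_ne_top.2 hne)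
    have hfe : ∀ w : Fin n → E, f w = ∑ j, w j * f (Pi.single j 1) := by
      intro w
      conv_lhs => rw [pi_eq_sum_univ' w]
      rw [map_sum]
      refine Finset.sum_congr rfl fun j _ => ?_
      rw [map_smul, smul_eq_mul]
    have hz : ∀ (e : E) (i : Fin n),
        ∑ g : G, (∑ j, φ g (M g⁻¹ i j) * f (Pi.single j 1)) * φ g e = 0 := by
      intro e i
      have h2 : f _ = 0 := hf (Submodule.subset_span (hav e i))
      rw [hfe] at h2
      rw [← h2]
      simp only [Finset.sum_mul]
      rw [Finset.sum_comm]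
      refine Finset.sum_congr rfl fun j _ => Finset.sum_congr rfl fun g _ => ?_
      ring
    have hind : LinearIndependent E (fun g : G => ((φ g : E →* E) : E → E)) := by
      have h3 := linearIndependent_monoidHom E E
      refine h3.comp (fun g : G => ((φ g : E ≃ₐ[k] E) : E →* E)) ?_
      intro g g' hgg
      apply φ.injective
      ext z
      exact DFunLike.congr_fun hgg z
    have hc : ∀ (i : Fin n) (g : G), ∑ j, φ g (M g⁻¹ i j) * f (Pi.single j 1) = 0 := by
      intro i
      have h3 := Fintype.linearIndependent_iff.1 hind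
        (fun g => ∑ j, φ g (M g⁻¹ i j) * f (Pi.single j 1)) (by
          ext e
          rw [Finset.sum_apply]
          simp only [Pi.smul_apply, smul_eq_mul, Pi.zero_apply]
          exact hz e i)
      exact h3
    apply hf0
    apply LinearMap.ext
    intro w
    rw [hfe, LinearMap.zero_apply]
    refine Finset.sum_eq_zero fun i _ => ?_
    have h4 := hc i 1
    rw [inv_one, h1] at h4
    have h5 : ∑ j, φ 1 ((1 : Matrix (Fin n) (Fin n) E) i j) * f (Pi.single j 1) =
        f (Pi.single i 1) := by
      rw [Finset.sum_eq_single i]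
      · rw [Matrix.one_apply_eq, map_one, one_mul]
      · intro j _ hj
        rw [Matrix.one_apply_ne (Ne.symm hj), map_zero, zero_mul]
      · intro h; exact absurd (Finset.mem_univ i) h
    rw [h5] at h4
    rw [h4, mul_zero]
  obtain ⟨b, hb, hbs, hbi⟩ := exists_linearIndependent E Λ
  rw [hspan] at hbs
  let B : Module.Basis b E (Fin n → E) := Module.Basis.mk hbi (by
    rw [Subtype.range_coe_subtype, Set.ofPred_mem_eq, hbs])
  have hbf : Finite b := Module.Finite.finite_basis B
  have := Fintype.ofFinite b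
  have hcard : Fintype.card b = Fintype.card (Fin n) := by
    rw [← Module.finrank_eq_card_basis B, Module.finrank_fin_fun, Fintype.card_fin]
  let ε : Fin n ≃ b := (Fintype.equivOfCardEq hcard).symm
  refine ⟨Matrix.of fun i => (ε i : Fin n → E), ?_, ?_⟩
  · rw [← Matrix.linearIndependent_rows_iff_isUnit]
    exact hbi.comp ε ε.injective
  · intro g i j
    exact hb (ε i).2 g j

section main

variable {k L K E Γ G : Type} [Field k] [Field L] [Field K] [Field E] [Algebra k L] [Algebra k K]
  [Algebra L K] [IsScalarTower k L K] [Algebra k E] [Algebra L E] [IsScalarTower k L E] [Group Γ]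
  [Group G]

/-- the matrices of a semilinear action -/
theorem matrices (ρ : Γ →* (K ≃ₐ[k] K)) (π : Γ →* (L ≃ₐ[k] L))
    (hπ : ∀ g (z : L), ρ g (algebraMap L K z) = algebraMap L K (π g z))
    {n : ℕ} (t : Fin n → K) (ht : LinearIndependent L t)
    (hlin : ∀ g j, ρ g (t j) ∈ Submodule.span L (Set.range t)) :
    ∃ M : Γ → Matrix (Fin n) (Fin n) L, M 1 = 1 ∧
      (∀ g h i j, M (g * h) i j = ∑ l, M g i l * π g (M h l j)) ∧
      ∀ g j, ρ g (t j) = ∑ i, algebraMap L K (M g i j) * t i := by
  have h1 : ∀ g j, ∃ c : Fin n → L, ∑ i, c i • t i = ρ g (t j) := by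
    intro g j
    exact (Submodule.mem_span_range_iff_exists_fun L).1 (hlin g j)
  choose c hc using h1
  have hM : ∀ g j, ρ g (t j) = ∑ i, algebraMap L K ((Matrix.of fun i j => c g j i) i j) * t i := by
    intro g j
    rw [← hc g j]
    refine Finset.sum_congr rfl fun i _ => ?_
    rw [Algebra.smul_def]
    rfl
  have huniq : ∀ N N' : Matrix (Fin n) (Fin n) L,
      (∀ j, ∑ i, algebraMap L K (N i j) * t i = ∑ i, algebraMap L K (N' i j) * t i) → N = N' := by
    intro N N' h
    ext i j
    have h2 := h j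
    have h3 : ∑ i, (N i j - N' i j) • t i = 0 := by
      rw [← sub_eq_zero, ← Finset.sum_sub_distrib] at h2
      rw [← h2]
      refine Finset.sum_congr rfl fun i _ => ?_
      rw [Algebra.smul_def, map_sub, sub_mul]
    exact sub_eq_zero.1 (Fintype.linearIndependent_iff.1 ht _ h3 i)
  refine ⟨fun g => Matrix.of fun i j => c g j i, huniq _ _ fun j => ?_, fun g h i j => ?_, hM⟩
  · rw [← hM 1 j, map_one, Finset.sum_eq_single j]
    · rw [Matrix.one_apply_eq, map_one, one_mul]; rfl
    · intro i _ hi
      rw [Matrix.one_apply_ne hi, map_zero, zero_mul]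
    · intro h; exact absurd (Finset.mem_univ j) h
  · have h0 : (Matrix.of fun i j => c (g * h) j i) = Matrix.of fun i j =>
        ∑ l, (Matrix.of fun i j => c g j i) i l * π g ((Matrix.of fun i j => c h j i) l j) := by
      refine huniq _ _ fun j => ?_
      rw [← hM (g * h) j, map_mul, AlgEquiv.mul_apply, hM h j, map_sum]
      have h2 : ∀ i, ρ g (algebraMap L K ((Matrix.of fun i j => c h j i) i j) * t i) =
          ∑ l, algebraMap L K ((Matrix.of fun i j => c g j i) l i *
            π g ((Matrix.of fun i j => c h j i) i j)) * t l := by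
        intro i
        rw [map_mul, hπ, hM g i, Finset.mul_sum]
        refine Finset.sum_congr rfl fun l _ => ?_
        rw [map_mul]
        ring
      rw [Finset.sum_congr rfl fun i _ => h2 i, Finset.sum_comm]
      refine Finset.sum_congr rfl fun l _ => ?_
      rw [Matrix.of_apply, map_sum, Finset.sum_mul]
    exact congrFun (congrFun h0 i) j

/-- the twist of a semilinear action by `E` is rational -/
theorem linear_twist [Finite G] [CharZero k] [FiniteDimensional k E] [IsGalois k E]
    (ρ : Γ →* (K ≃ₐ[k] K)) (π : Γ →* (L ≃ₐ[k] L))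
    (hπ : ∀ g (z : L), ρ g (algebraMap L K z) = algebraMap L K (π g z))
    {n : ℕ} (t : Fin n → K) (ht : AlgebraicIndependent L t)
    (htop : IntermediateField.adjoin L (Set.range t) = ⊤)
    (hlin : ∀ g j, ρ g (t j) ∈ Submodule.span L (Set.range t)) (φ : G ≃* (E ≃ₐ[k] E))
    (χ : G →* Γ) (hχ : ∀ g (y : L), φ g (algebraMap L E y) = algebraMap L E (π (χ g) y)) :
    ∃ (j : K →ₐ[k] Rat' E n) (τ : Rat' k n →ₐ[k] Rat' E n),
      (IsScalarTower.toAlgHom k E (Rat' E n)).fieldRange ⊔ j.fieldRange = ⊤ ∧
      (∀ y : L, algebraMap E (Rat' E n) (algebraMap L E y) = j (algebraMap L K y)) ∧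
      (∀ g a, coef n φ g (j a) = j (ρ (χ g) a)) ∧
      ∀ z, z ∈ τ.fieldRange ↔ ∀ g, coef n φ g z = z := by
  obtain ⟨M, h1, hmul, hM⟩ := matrices ρ π hπ t ht.linearIndependent hlin
  obtain ⟨W, hW, hWM⟩ := speiser φ n (fun g => (M (χ g)).map (algebraMap L E)) (by
      rw [map_one, h1, Matrix.map_one _ (map_zero _) (map_one _)]) (fun g h i j => by
      rw [map_mul, Matrix.map_apply, hmul, map_sum]
      refine Finset.sum_congr rfl fun l _ => ?_
      rw [map_mul, Matrix.map_apply, Matrix.map_apply, hχ])
  obtain ⟨j₀, hj₀⟩ := Pool.Agent.W240.HP.lift L K (Rat' E n) (Fin n) t (lin W) ht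
    (algInd_lin L W hW) htop
  have hjL : ∀ y : L, j₀ (algebraMap L K y) = algebraMap E (Rat' E n) (algebraMap L E y) :=
    fun y => (j₀.commutes y).trans (IsScalarTower.algebraMap_apply L E (Rat' E n) y)
  let j : K →ₐ[k] Rat' E n :=
    { (j₀ : K →+* Rat' E n) with
      commutes' := fun c => by
        change j₀ (algebraMap k K c) = _
        rw [IsScalarTower.algebraMap_apply k L K, hjL, ← IsScalarTower.algebraMap_apply k L E,
          ← IsScalarTower.algebraMap_apply k E (Rat' E n)] }
  have hjj : ∀ a, j a = j₀ a := fun a => rfl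
  obtain ⟨τ, hτ⟩ := Pool.Agent.W240.HP.lift k (Rat' k n) (Rat' E n) (Fin n) (yv k n) (yv E n)
    (algInd_yv k k n) (algInd_yv k E n) (adjoin_yv k n)
  have hrange : τ.fieldRange = IntermediateField.adjoin k (Set.range (yv E n)) := by
    rw [AlgHom.fieldRange_eq_map, ← adjoin_yv k n, IntermediateField.adjoin_map]
    congr 1
    rw [← Set.range_comp]
    congr 1
    funext i
    exact hτ i
  refine ⟨j, τ, ?_, fun y => (hjL y).symm, fun g a => ?_, fun z => ⟨?_, fun hz => ?_⟩⟩
  · rw [eq_top_iff, ← gen_E (k := k) (E := E) n]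
    refine sup_le le_sup_left ?_
    rw [IntermediateField.adjoin_le_iff]
    rintro _ ⟨l, rfl⟩
    rw [yv_eq W hW l]
    refine sum_mem fun i _ => mul_mem ?_ ?_
    · exact le_sup_left (a := (IsScalarTower.toAlgHom k E (Rat' E n)).fieldRange)
        ⟨W⁻¹ i l, rfl⟩
    · rw [← hj₀ i]
      exact le_sup_right (a := (IsScalarTower.toAlgHom k E (Rat' E n)).fieldRange)
        ⟨t i, rfl⟩
  · -- the two homomorphisms agree on `L` and on the `t i`
    let U : IntermediateField k K := eqField ((coef n φ g : Rat' E n →ₐ[k] Rat' E n).comp j)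
      (j.comp (ρ (χ g) : K →ₐ[k] K))
    have hUL : ∀ y : L, algebraMap L K y ∈ U := by
      intro y
      change coef1 n (φ g) (j₀ (algebraMap L K y)) = j₀ (ρ (χ g) (algebraMap L K y))
      rw [hπ, hjL, hjL, coef1_C, hχ]
    let U' : IntermediateField L K := { U with algebraMap_mem' := hUL }
    have hU : IntermediateField.adjoin L (Set.range t) ≤ U' := by
      rw [IntermediateField.adjoin_le_iff]
      rintro _ ⟨l, rfl⟩
      change coef1 n (φ g) (j₀ (t l)) = j₀ (ρ (χ g) (t l))
      rw [hj₀, hM, map_sum, lin, map_sum]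
      have h3 : ∀ i, coef1 n (φ g) (algebraMap E (Rat' E n) (W i l) * yv E n i) =
          ∑ m, algebraMap E (Rat' E n) (algebraMap L E (M (χ g) m l) * W i m) * yv E n i := by
        intro i
        rw [map_mul, coef1_C, coef1_yv, hWM g i l, map_sum, Finset.sum_mul]
        rfl
      rw [Finset.sum_congr rfl fun i _ => h3 i, Finset.sum_comm]
      refine Finset.sum_congr rfl fun m _ => ?_
      rw [map_mul, hjL, hj₀, lin, Finset.mul_sum]
      refine Finset.sum_congr rfl fun i _ => ?_
      rw [map_mul]
      ring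
    rw [htop] at hU
    have h4 : a ∈ U' := hU (IntermediateField.mem_top (x := a))
    exact h4
  · intro hz g
    rw [hrange] at hz
    have h : IntermediateField.adjoin k (Set.range (yv E n)) ≤
        eqField (coef n φ g : Rat' E n →ₐ[k] Rat' E n) (AlgHom.id k _) := by
      rw [adjoin_le_iff]
      rintro _ ⟨i, rfl⟩
      exact coef1_yv n (φ g) i
    exact h hz
  · rw [hrange]
    exact mem_of_fixed n φ z hz

end main

end Pool.Agent.Helper44q.E
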