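import Pool.Agent.Helper44q.E.Sem

/-! Embedding problems with a weak solution and split embedding problems. -/

set_option autoImplicit false

namespace Pool.Agent.Helper44q.E

open IntermediateField

section

variable {k Γ : Type} [Field k] [Group Γ] {L : IntermediateField k (AlgebraicClosure k)}

/-- the pull back of `π : Γ → Gal(L/k)` to the Galois group of a larger field -/
def Pull (π : Γ →* (L ≃ₐ[k] L)) {E : IntermediateField k (AlgebraicClosure k)}
    (r : (E ≃ₐ[k] E) →* (L ≃ₐ[k] L)) : Subgroup (Γ × (E ≃ₐ[k] E)) where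
  carrier := {x | π x.1 = r x.2}
  mul_mem' := fun {a b} ha hb => by
    change π (a.1 * b.1) = r (a.2 * b.2)
    rw [map_mul, map_mul, show π a.1 = r a.2 from ha, show π b.1 = r b.2 from hb]
  one_mem' := by
    change π 1 = r 1
    rw [map_one, map_one]
  inv_mem' := fun {a} ha => by
    change π a.1⁻¹ = r a.2⁻¹
    rw [map_inv, map_inv, show π a.1 = r a.2 from ha]

/-- the projection of the pull back -/
noncomputable def pullPr (π : Γ →* (L ≃ₐ[k] L)) {E : IntermediateField k (AlgebraicClosure k)}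
    (r : (E ≃ₐ[k] E) →* (L ≃ₐ[k] L)) : Pull π r →* (E ≃ₐ[k] E) :=
  (MonoidHom.snd _ _).comp (Pull π r).subtype

/-- an embedding problem with a weak solution is dominated by a split embedding problem with the
same kernel -/
theorem split_of_weak [CharZero k] [FiniteDimensional k L] [IsGalois k L]
    {π : Γ →* (L ≃ₐ[k] L)} (h : WeaklySolvable π) :
    ∃ (E : IntermediateField k (AlgebraicClosure k)) (_ : FiniteDimensional k E)
      (_ : IsGalois k E) (r : (E ≃ₐ[k] E) →* (L ≃ₐ[k] L)) (s : (E ≃ₐ[k] E) →* Pull π r),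
      L ≤ E ∧ (∀ x, pullPr π r (s x) = x) ∧
      (ProperlySolvable (pullPr π r) → ProperlySolvable π) ∧
      ∀ L' : IntermediateField k (AlgebraicClosure k), SolvableBeyond (pullPr π r) L' →
        SolvableBeyond π L' := by
  obtain ⟨θ, hθ⟩ := h
  obtain ⟨E, hE1, hE2, χ, hLE, hχR, hχ⟩ := hθ.factor
  let R : Gk k →* (E ≃ₐ[k] E) := AlgEquiv.restrictNormalHom E
  have hR : ∀ (σ : Gk k) (z : E), ((R σ z : E) : AlgebraicClosure k) = σ z := fun σ z =>
    AlgEquiv.restrictNormal_commutes σ E z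
  let r : (E ≃ₐ[k] E) →* (L ≃ₐ[k] L) := π.comp χ
  have hr : ∀ (τ : E ≃ₐ[k] E) (z : E) (y : L), (z : AlgebraicClosure k) = y →
      (τ z : AlgebraicClosure k) = r τ y := hχ
  have hrs : Function.Surjective r := by
    intro a
    obtain ⟨σ, hσ⟩ := AlgEquiv.restrictNormalHom_surjective (F := k) (K₁ := L)
      (AlgebraicClosure k) a
    refine ⟨R σ, ?_⟩
    rw [← hσ]
    apply AlgEquiv.ext
    intro y
    apply Subtype.ext
    rw [← hr (R σ) ⟨y, hLE y.2⟩ y rfl, hR]
    exact (AlgEquiv.restrictNormal_commutes σ L y).symm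
  have hmem : ∀ x : Pull π r, π x.1.1 = r x.1.2 := fun x => x.2
  let s : (E ≃ₐ[k] E) →* Pull π r :=
    { toFun := fun x => ⟨(χ x, x), rfl⟩
      map_one' := Subtype.ext (Prod.ext (map_one χ) rfl)
      map_mul' := fun x y => Subtype.ext (Prod.ext (map_mul χ x y) rfl) }
  let pr : Pull π r →* Γ := (MonoidHom.fst _ _).comp (Pull π r).subtype
  have hprs : Function.Surjective pr := by
    intro g
    obtain ⟨τ, hτ⟩ := hrs (π g)
    exact ⟨⟨(g, τ), hτ.symm⟩, rfl⟩
  have hsol : ∀ Θ : Gk k →* Pull π r, IsSolution (pullPr π r) Θ → IsSolution π (pr.comp Θ) := by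
    intro Θ hΘ
    refine ⟨?_, fun σ y => ?_⟩
    · obtain ⟨E', h1, h2⟩ := hΘ.1
      refine ⟨E', h1, fun σ hσ => ?_⟩
      have := h2 hσ
      rw [MonoidHom.mem_ker] at this ⊢
      rw [MonoidHom.comp_apply, this, map_one]
    · have h1 := hΘ.2 σ ⟨y, hLE y.2⟩
      have h2 : π (pr (Θ σ)) = r (pullPr π r (Θ σ)) := hmem (Θ σ)
      rw [MonoidHom.comp_apply, h2, ← hr (pullPr π r (Θ σ)) ⟨y, hLE y.2⟩ y rfl]
      exact h1
  refine ⟨E, hE1, hE2, r, s, hLE, fun x => rfl, ?_, fun L' => ?_⟩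
  · rintro ⟨Θ, hΘ, hs⟩
    exact ⟨pr.comp Θ, hsol Θ hΘ, hprs.comp hs⟩
  · rintro ⟨Θ, hΘ, hs, hb⟩
    refine ⟨pr.comp Θ, hsol Θ hΘ, hprs.comp hs, fun g hg => ?_⟩
    have h1 : ((g, 1) : Γ × (E ≃ₐ[k] E)) ∈ Pull π r := by
      change π g = r 1
      rw [map_one, (MonoidHom.mem_ker).1 hg]
    obtain ⟨σ, hσ, hσ'⟩ := hb ⟨(g, 1), h1⟩ rfl
    refine ⟨σ, hσ, ?_⟩
    rw [MonoidHom.comp_apply, hσ']
    rfl

/-- the fibre powers of a weakly solvable embedding problem are weakly solvable -/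
theorem weak_fib [Normal k L] [FiniteDimensional k L] {π : Γ →* (L ≃ₐ[k] L)}
    (h : WeaklySolvable π) (m : ℕ) : WeaklySolvable (fibPr π m) := by
  obtain ⟨θ, hθ⟩ := h
  let R : Gk k →* (L ≃ₐ[k] L) := AlgEquiv.restrictNormalHom L
  have hR : ∀ (σ : Gk k) (z : L), ((R σ z : L) : AlgebraicClosure k) = σ z := fun σ z =>
    AlgEquiv.restrictNormal_commutes σ L z
  have hπ : ∀ σ, π (θ σ) = R σ := by
    intro σ
    apply AlgEquiv.ext
    intro z
    apply Subtype.ext
    rw [← hθ.2, hR]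
  let Θ : Gk k →* Fib π m :=
    { toFun := fun σ => ⟨(fun _ => θ σ, R σ), fun _ => hπ σ⟩
      map_one' := Subtype.ext (Prod.ext (funext fun _ => map_one θ) (map_one R))
      map_mul' := fun σ τ => Subtype.ext (Prod.ext (funext fun _ => map_mul θ σ τ)
        (map_mul R σ τ)) }
  obtain ⟨E, hE, hEk⟩ := hθ.1
  refine ⟨Θ, ⟨E ⊔ L, inferInstance, fun σ hσ => ?_⟩, fun σ z => (hR σ z).symm⟩
  have h1 : θ σ = 1 := hEk ((IntermediateField.mem_fixingSubgroup_iff _ _).2 fun z hz =>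
    (IntermediateField.mem_fixingSubgroup_iff _ _).1 hσ z (le_sup_left (a := E) hz))
  have h2 : R σ = 1 := by
    apply AlgEquiv.ext
    intro z
    apply Subtype.ext
    rw [hR]
    exact (IntermediateField.mem_fixingSubgroup_iff _ _).1 hσ z (le_sup_right (a := E) z.2)
  exact Subtype.ext (Prod.ext (funext fun _ => h1) h2)

theorem weak_of_proper {π : Γ →* (L ≃ₐ[k] L)} (h : ProperlySolvable π) : WeaklySolvable π := by
  obtain ⟨θ, hθ, -⟩ := h
  exact ⟨θ, hθ⟩

/-- the embedding problem is a quotient of its first fibre power -/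
theorem of_fib_one {π : Γ →* (L ≃ₐ[k] L)} (h : ProperlySolvable (fibPr π 1)) :
    ProperlySolvable π := by
  obtain ⟨Θ, hΘ, hs⟩ := h
  let c : Fib π 1 →* Γ :=
    (Pi.evalMonoidHom (fun _ : Fin 1 => Γ) 0).comp ((MonoidHom.fst _ _).comp (Fib π 1).subtype)
  have hcs : Function.Surjective c := fun g => ⟨⟨(fun _ => g, π g), fun _ => rfl⟩, rfl⟩
  have hc : ∀ x, π (c x) = fibPr π 1 x := fun x => x.2 0
  refine ⟨c.comp Θ, ⟨?_, fun σ z => ?_⟩, hcs.comp hs⟩
  · obtain ⟨E', h1, h2⟩ := hΘ.1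
    refine ⟨E', h1, fun σ hσ => ?_⟩
    have := h2 hσ
    rw [MonoidHom.mem_ker] at this ⊢
    rw [MonoidHom.comp_apply, this, map_one]
  · rw [MonoidHom.comp_apply, hc]
    exact hΘ.2 σ z

theorem weak_of_section [Normal k L] [FiniteDimensional k L] {π : Γ →* (L ≃ₐ[k] L)}
    (s : (L ≃ₐ[k] L) →* Γ) (hs : ∀ x, π (s x) = x) : WeaklySolvable π := by
  let R : Gk k →* (L ≃ₐ[k] L) := AlgEquiv.restrictNormalHom L
  have hR : ∀ (σ : Gk k) (z : L), ((R σ z : L) : AlgebraicClosure k) = σ z := fun σ z =>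
    AlgEquiv.restrictNormal_commutes σ L z
  refine ⟨s.comp R, ⟨L, inferInstance, fun σ hσ => ?_⟩, fun σ z => ?_⟩
  · have h2 : R σ = 1 := by
      apply AlgEquiv.ext
      intro z
      apply Subtype.ext
      rw [hR]
      exact (IntermediateField.mem_fixingSubgroup_iff _ _).1 hσ z z.2
    rw [MonoidHom.mem_ker, MonoidHom.comp_apply, h2, map_one]
  · rw [MonoidHom.comp_apply, hs, hR]

end

end Pool.Agent.Helper44q.E
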