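import Pool.Agent.Helper44q.E.Spc
import Pool.Agent.R70.HC.Main

/-! A rational point gives a weak solution. -/

set_option autoImplicit false

namespace Pool.Agent.Helper44q.E

open IntermediateField
open Pool.Agent.Helper44q.Q (actE actE_mul actE_one dec mem_dec rational_class bs mem_bs bsC fg_bs
  finite_C exists_stable)

section

variable {k S N : Type} [Field k] [Field S] [Field N] [Algebra k S] [Algebra S N] [Algebra k N]
  [IsScalarTower k S N] [FiniteDimensional S N] [IsGalois S N]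

variable (C : Subalgebra k N) (hC : ∀ (σ : N ≃ₐ[S] N), ∀ c ∈ C, σ c ∈ C)

/-- the action of the decomposition group on the residue field -/
noncomputable def resD (Q : Ideal C) (σ : dec C hC Q) : (C ⧸ Q) ≃ₐ[k] (C ⧸ Q) :=
  Ideal.quotientEquivAlg Q Q (actE C hC σ) (by
    have h1 : ∀ c : C, actE C hC σ c ∈ Q ↔ c ∈ Q := σ.2
    ext c
    have h2 := Ideal.mem_map_iff_of_surjective (I := Q) (y := c)
      ((actE C hC σ : C ≃+* C) : C →+* C) (actE C hC σ).surjective
    refine Iff.trans ?_ h2.symm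
    constructor
    · intro hc
      refine ⟨(actE C hC σ).symm c, (h1 _).1 ?_, AlgEquiv.apply_symm_apply _ _⟩
      rw [AlgEquiv.apply_symm_apply]
      exact hc
    · rintro ⟨x, hx, rfl⟩
      exact (h1 x).2 hx)

attribute [local instance] Ideal.Quotient.field in
include hC in
/-- the residue field is a Galois extension whose Galois group is the decomposition group -/
theorem residue_weak [CharZero k] (hfg : Algebra.FiniteType k C) (Q : Ideal C) [Q.IsMaximal]
    (y : bs S C →ₐ[k] k)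
    (hy : ∀ b : bs S C, bsC C b - algebraMap k C (y b) ∈ Q)
    (hu : ∀ σ : N ≃ₐ[S] N, σ ≠ 1 → ∃ c ∈ C, ∃ d ∈ C, (σ c - c) * d = 1) :
    FiniteDimensional k (C ⧸ Q) ∧ IsGalois k (C ⧸ Q) ∧
      ∃ Φ : ((C ⧸ Q) ≃ₐ[k] (C ⧸ Q)) →* (N ≃ₐ[S] N), ∀ (τ : (C ⧸ Q) ≃ₐ[k] (C ⧸ Q)) (c : C),
        τ (Ideal.Quotient.mk Q c) = Ideal.Quotient.mk Q (actE C hC (Φ τ) c) := by
  have h1 : Algebra.FiniteType k (C ⧸ Q) :=
    Algebra.FiniteType.of_surjective (Ideal.Quotient.mkₐ k Q) (Ideal.Quotient.mkₐ_surjective k Q)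
  have h2 : FiniteDimensional k (C ⧸ Q) := finite_of_finite_type_of_isJacobsonRing k (C ⧸ Q)
  let Ψ : dec C hC Q →* ((C ⧸ Q) ≃ₐ[k] (C ⧸ Q)) :=
    { toFun := resD C hC Q
      map_one' := by
        apply AlgEquiv.ext
        intro x
        obtain ⟨c, rfl⟩ := Ideal.Quotient.mk_surjective x
        rfl
      map_mul' := by
        intro σ τ
        apply AlgEquiv.ext
        intro x
        obtain ⟨c, rfl⟩ := Ideal.Quotient.mk_surjective x
        rfl }
  have hΨ : ∀ (σ : dec C hC Q) (c : C),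
        Ψ σ (Ideal.Quotient.mk Q c) = Ideal.Quotient.mk Q (actE C hC σ c) := fun _ _ => rfl
  have h3 : IntermediateField.fixedField Ψ.range = ⊥ := by
    rw [eq_bot_iff]
    intro x hx
    obtain ⟨c, rfl⟩ := Ideal.Quotient.mk_surjective x
    obtain ⟨a, ha⟩ := rational_class C hC Q y hy c (fun σ hσ => by
      have h4 := (IntermediateField.mem_fixedField_iff _ _).1 hx (Ψ ⟨σ, hσ⟩) ⟨⟨σ, hσ⟩, rfl⟩
      rw [hΨ] at h4
      exact Ideal.Quotient.eq.1 h4)
    rw [IntermediateField.mem_bot]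
    exact ⟨a, (Ideal.Quotient.eq.2 ha).symm⟩
  have h4 : Ψ.range = ⊤ := by
    rw [← IntermediateField.fixingSubgroup_fixedField Ψ.range, h3,
      IntermediateField.fixingSubgroup_bot]
  have h5 : IsGalois k (C ⧸ Q) := by
    refine IsGalois.of_fixedField_eq_bot k (C ⧸ Q) ?_
    rw [← h4, h3]
  have h6 : Function.Injective Ψ := by
    rw [injective_iff_map_eq_one]
    intro σ hσ
    by_contra hne
    obtain ⟨c, hc, d, hd, hcd⟩ := hu σ (fun h => hne (Subtype.ext h))
    have h7 := hΨ σ ⟨c, hc⟩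
    rw [hσ, AlgEquiv.one_apply] at h7
    have h8 := Ideal.Quotient.eq.1 h7.symm
    have h9 : (actE C hC σ ⟨c, hc⟩ - ⟨c, hc⟩) * (⟨d, hd⟩ : C) = 1 := Subtype.ext hcd
    have h10 : (1 : C) ∈ Q := by
      rw [← h9]
      exact Ideal.mul_mem_right _ _ h8
    exact Ideal.IsPrime.ne_top' ((Ideal.eq_top_iff_one _).2 h10)
  let Ξ : dec C hC Q ≃* ((C ⧸ Q) ≃ₐ[k] (C ⧸ Q)) :=
    MulEquiv.ofBijective Ψ ⟨h6, MonoidHom.range_eq_top.1 h4⟩
  refine ⟨h2, h5, (dec C hC Q).subtype.comp (Ξ.symm : ((C ⧸ Q) ≃ₐ[k] (C ⧸ Q)) →* dec C hC Q),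
    fun τ c => ?_⟩
  have h7 := hΨ (Ξ.symm τ) c
  have h8 : Ψ (Ξ.symm τ) = τ := Ξ.apply_symm_apply τ
  rw [h8] at h7
  exact h7

end

section

variable {k Γ : Type} [Field k] [Group Γ] {L : IntermediateField k (AlgebraicClosure k)}

attribute [local instance] Ideal.Quotient.field in
/-- a weak solution from a regular solution over a function field with `k`-points -/
theorem weak_of_points [CharZero k] [FiniteDimensional k L] (π : Γ →* (L ≃ₐ[k] L)) {S : Type}
    [Field S] [Algebra k S]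
    (hS : ∃ F : Finset S, IntermediateField.adjoin k (F : Set S) = ⊤)
    (hav : ∀ F : Finset S, ∃ (B : Subalgebra k S) (_ : B →ₐ[k] k), (F : Set S) ⊆ B)
    (h : RegularOver π S) : WeaklySolvable π := by
  classical
  obtain ⟨N, _, _, _, _, _, _, θ, hfin, hgal, hθ, hreg⟩ := h
  have : CharZero S := charZero_of_injective_algebraMap (algebraMap k S).injective
  obtain ⟨α, hα⟩ := Field.exists_primitive_element k L
  obtain ⟨C, hC, hT, hfg, hN, hu⟩ := exists_stable k hS {algebraMap L N α}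
  let j : L →ₐ[k] N := IsScalarTower.toAlgHom k L N
  have hjC : ∀ l : L, j l ∈ C := by
    have h1 : Algebra.adjoin k {α} ≤ C.comap j := by
      rw [Algebra.adjoin_le_iff]
      intro x hx
      rw [Set.mem_singleton_iff.1 hx]
      exact hT _ (Finset.mem_singleton_self _)
    have h2 : Algebra.adjoin k {α} = ⊤ := by
      rw [← IntermediateField.adjoin_simple_toSubalgebra_of_isAlgebraic
        (Algebra.IsAlgebraic.isAlgebraic α), hα, IntermediateField.top_toSubalgebra]
    intro l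
    exact h1 (by rw [h2]; trivial)
  let jC : L →ₐ[k] C := j.codRestrict C hjC
  -- a point of the ring of invariants
  obtain ⟨F, hF⟩ := (Subalgebra.fg_iff_finiteType (bs S C)).2 (fg_bs C hfg hC)
  obtain ⟨B, φ, hB⟩ := hav F
  have hle : bs S C ≤ B := by
    rw [← hF, Algebra.adjoin_le_iff]
    exact hB
  let y : bs S C →ₐ[k] k := φ.comp (Subalgebra.inclusion hle)
  let _ : Algebra (bs S C) C := (bsC C).toAlgebra
  have hfin' : Module.Finite (bs S C) C := finite_C C hfg hC
  have hmax : (RingHom.ker (y : bs S C →+* k)).IsMaximal :=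
    RingHom.ker_isMaximal_of_surjective _ (fun a => ⟨algebraMap k _ a, y.commutes a⟩)
  obtain ⟨Q, hQ, hQP⟩ := Ideal.exists_ideal_over_maximal_of_isIntegral (S := C)
    (RingHom.ker (y : bs S C →+* k)) (by
      intro b hb
      have h2 : b = 0 := by
        apply Subtype.ext
        apply (algebraMap S N).injective
        have h3 : bsC C b = 0 := hb
        have h4 := congrArg (fun c : C => (c : N)) h3
        exact h4.trans (map_zero _).symm
      rw [h2]
      exact Ideal.zero_mem _)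
  have hy' : ∀ b : bs S C, bsC C b - algebraMap k C (y b) ∈ Q := by
    intro b
    have h2 : b - algebraMap k (bs S C) (y b) ∈ RingHom.ker (y : bs S C →+* k) := by
      rw [RingHom.mem_ker]
      change y (b - algebraMap k (bs S C) (y b)) = 0
      rw [map_sub, y.commutes]
      exact sub_self _
    rw [← hQP, Ideal.mem_comap] at h2
    have h3 : algebraMap (bs S C) C (b - algebraMap k (bs S C) (y b)) =
        bsC C b - algebraMap k C (y b) := by
      rw [map_sub]
      congr 1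
      apply Subtype.ext
      exact (IsScalarTower.algebraMap_apply k S N (y b)).symm
    rw [← h3]
    exact h2
  obtain ⟨h5, h6, Φ, hΦ⟩ := residue_weak C hC hfg Q y hy' hu
  let ψ : C →ₐ[k] C ⧸ Q := Ideal.Quotient.mkₐ k Q
  let lam : L →ₐ[k] C ⧸ Q := ψ.comp jC
  obtain ⟨u, hu'⟩ : ∃ u : C ⧸ Q →ₐ[k] AlgebraicClosure k, ∀ z : L, u (lam z) = z :=
    exists_ext' lam L.val
  let _ : Algebra (C ⧸ Q) (AlgebraicClosure k) := (u : C ⧸ Q →+* AlgebraicClosure k).toAlgebra
  have htow : IsScalarTower k (C ⧸ Q) (AlgebraicClosure k) :=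
    IsScalarTower.of_algebraMap_eq fun c => (u.commutes c).symm
  let R : Gk k →* ((C ⧸ Q) ≃ₐ[k] (C ⧸ Q)) := AlgEquiv.restrictNormalHom (C ⧸ Q)
  have hR : ∀ (σ : Gk k) (x : C ⧸ Q), u (R σ x) = σ (u x) := fun σ x =>
    AlgEquiv.restrictNormal_commutes σ (C ⧸ Q) x
  let Θ : Gk k →* Γ := ((θ : (N ≃ₐ[S] N) →* Γ).comp Φ).comp R
  have hΘ : ∀ σ, Θ σ = θ (Φ (R σ)) := fun σ => rfl
  refine ⟨Θ, ⟨u.fieldRange, ?_, fun σ hσ => ?_⟩, fun σ z => ?_⟩
  · exact (AlgEquiv.ofInjectiveField u).toLinearEquiv.finiteDimensional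
  · have h1 : R σ = 1 := by
      apply AlgEquiv.ext
      intro x
      apply u.toRingHom.injective
      change u (R σ x) = u x
      rw [hR]
      exact (IntermediateField.mem_fixingSubgroup_iff _ _).1 hσ _ ⟨x, rfl⟩
    rw [MonoidHom.mem_ker, hΘ, h1, map_one, map_one]
  · have h1 : actE C hC (Φ (R σ)) (jC z) = jC (π (Θ σ) z) := by
      apply Subtype.ext
      exact hθ (Φ (R σ)) z
    have h2 : R σ (lam z) = lam (π (Θ σ) z) := by
      have h3 := hΦ (R σ) (jC z)
      rw [h1] at h3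
      exact h3
    have h3 := hR σ (lam z)
    rw [h2, hu', hu'] at h3
    exact h3.symm

end

end Pool.Agent.Helper44q.E
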