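import Pool.Agent.Helper44q.E.Quot
import Pool.Agent.Helper44q.E.Split
import Pool.Agent.Helper44q.E.Weak
import Pool.Agent.Helper44q.S.Den
import Pool.Agent.Helper44q.Q.Ext

/-! Embedding problems and the Hilbert property: the theorem. -/

set_option autoImplicit false

namespace Pool.Agent.Helper44q.E

open IntermediateField AlgebraicGeometry CategoryTheory W560.HP
open Pool.Agent.TH178.HI (HasFunctionField)
open Pool.Agent.Y742.HC (DensePoints)
open Pool.Agent.Helper44q.Q hiding quot IsTwist linear_twist speiser matrices twist_embed two_twists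
  exists_restrict exists_over_one exists_over_two key exists_diag

section

variable {k Γ : Type} [Field k] [Group Γ] {L : IntermediateField k (AlgebraicClosure k)}
  {K : Type} [Field K] [Algebra k K] [Algebra L K] [IsScalarTower k L K]

/-- independent solutions of the embedding problem give the Hilbert property -/
theorem hilbertType_of_fib [CharZero k]
    (hk : ∃ S : Finset k, IntermediateField.adjoin ℚ (S : Set k) = ⊤) [Finite Γ]
    [FiniteDimensional k L] {π : Γ →* (L ≃ₐ[k] L)} {ρ : Γ →* (K ≃ₐ[k] K)} (h : IsSemilinear π ρ)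
    (H : ∀ m : ℕ, ProperlySolvable (fibPr π m)) : HilbertType k (inv ρ) := by
  have hreg := fun a ha => h.reg hk a ha
  obtain ⟨-, hρ, n, t, ht, htop, hlin⟩ := h
  refine hilbertType_of_hpf (quot ρ π hρ hreg fun r => ?_)
  obtain ⟨E, φ, h1, h2, h3⟩ := independent (H r)
  refine ⟨E, φ, fun i => (h1 i).1, fun i => (h1 i).2.1, h2, fun i => ⟨(h1 i).2.2, h3 i⟩,
    fun i => ⟨Rat' k n, inferInstance, inferInstance, ?_, hpf_rat k (hilbNR_of_fg hk) n⟩⟩
  have := (h1 i).1
  have := (h1 i).2.1
  let _ : Algebra L (E i) := (IntermediateField.inclusion (h1 i).2.2 : L →+* E i).toAlgebra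
  have hLEv : ∀ y : L, ((algebraMap L (E i) y : E i) : AlgebraicClosure k) = y := fun _ => rfl
  have : IsScalarTower k L (E i) := IsScalarTower.of_algebraMap_eq fun c => rfl
  obtain ⟨j, τ, ht1, ht2, ht3, ht4⟩ := linear_twist (E := E i) ρ π hρ t ht htop hlin (φ i)
    (MonoidHom.id Γ) (fun g y => Subtype.ext (h3 i g _ y (hLEv y)))
  refine ⟨Rat' (E i) n, inferInstance, inferInstance, IsScalarTower.toAlgHom k (E i) _, j, τ,
    coef n (φ i), ht1, fun z y hzy => ?_, fun g a => coef1_C n (φ i g) a, ht3, ht4⟩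
  have h4 : z = algebraMap L (E i) y := Subtype.ext hzy
  rw [h4]
  exact ht2 y

/-- the field of the action is a regular solution over the field of invariants -/
theorem regularOver_inv [CharZero k]
    (hk : ∃ S : Finset k, IntermediateField.adjoin ℚ (S : Set k) = ⊤) [Finite Γ]
    [FiniteDimensional k L] {π : Γ →* (L ≃ₐ[k] L)} {ρ : Γ →* (K ≃ₐ[k] K)}
    (h : IsSemilinear π ρ) : RegularOver π (inv ρ) := by
  obtain ⟨θ, hθ⟩ := exists_autG ρ h.1
  refine ⟨K, inferInstance, inferInstance, inferInstance, inferInstance,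
    IsScalarTower.of_algebraMap_eq fun _ => rfl, inferInstance, θ, finite_inv ρ, isGalois_inv ρ,
    fun σ y => ?_, fun a ha => h.reg hk a ha⟩
  rw [← hθ, h.2.1]

theorem finGen_inv [FiniteDimensional k L] {π : Γ →* (L ≃ₐ[k] L)} {ρ : Γ →* (K ≃ₐ[k] K)}
    (h : IsSemilinear π ρ) : FinGen k (inv ρ) :=
  finGen_sub h.finGen _

theorem tfae_rel [CharZero k]
    (hk : ∃ S : Finset k, IntermediateField.adjoin ℚ (S : Set k) = ⊤) [Finite Γ]
    [FiniteDimensional k L] [IsGalois k L] {π : Γ →* (L ≃ₐ[k] L)} {ρ : Γ →* (K ≃ₐ[k] K)}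
    (h : IsSemilinear π ρ) :
    [HilbertType k (inv ρ),
      ∀ m : ℕ, ProperlySolvable (fibPr π m),
      ∀ L' : IntermediateField k (AlgebraicClosure k), FiniteDimensional k L' →
        SolvableBeyond π L',
      ∃ (S : Type) (_ : Field S) (_ : Algebra k S), FinGen k S ∧ HilbertType k S ∧
        RegularOver π S].TFAE := by
  tfae_have 1 → 4 := fun h1 =>
    ⟨inv ρ, inferInstance, inferInstance, finGen_inv h, h1, regularOver_inv hk h⟩
  tfae_have 4 → 3 := by
    rintro ⟨S, _, _, hS, hHT, hreg⟩ L' hL'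
    exact beyond_of_regular π hS (fun X _ p _ hX => (hHT X p hX).1) hreg L'
  tfae_have 3 → 2 := fun h1 m => fib_of_beyond h1 m
  tfae_have 2 → 1 := fun h1 => hilbertType_of_fib hk h h1
  tfae_finish

/-- dense points, weak solutions, unirationality -/
theorem tfae_dense [CharZero k]
    (hk : ∃ S : Finset k, IntermediateField.adjoin ℚ (S : Set k) = ⊤) [Finite Γ]
    [FiniteDimensional k L] {π : Γ →* (L ≃ₐ[k] L)} {ρ : Γ →* (K ≃ₐ[k] K)}
    (h : IsSemilinear π ρ) (X : Scheme.{0}) (p : X ⟶ Spec (CommRingCat.of k)) [IsIntegral X]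
    [LocallyOfFiniteType p] (hX : HasFunctionField k X p (inv ρ)) :
    [DensePoints k X p, WeaklySolvable π,
      ∃ n : ℕ, Nonempty (inv ρ →ₐ[k] FractionRing (MvPolynomial (Fin n) k))].TFAE := by
  obtain ⟨e, he⟩ := hX
  tfae_have 1 → 2 := by
    intro hd
    have hav := Pool.Agent.R70.HC.av_of_dense k (inv ρ) X p e he hd
    exact weak_of_points π (finGen_inv h) (fun F => by
      obtain ⟨B, φ, h1, -⟩ := hav F
      exact ⟨B, φ, h1⟩) (regularOver_inv hk h)
  tfae_have 2 → 3 := embed_of_weak h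
  tfae_have 3 → 1 := by
    rintro ⟨n, ⟨ι⟩⟩
    exact Pool.Agent.Helper44q.S.dense_of_embed k (hilbNR_of_fg hk) (inv ρ) ι X p e he
  tfae_finish

theorem hilbertType_ratFunc [CharZero k]
    (hk : ∃ S : Finset k, IntermediateField.adjoin ℚ (S : Set k) = ⊤) :
    FinGen k (RatFunc k) ∧ HilbertType k (RatFunc k) :=
  ⟨⟨{RatFunc.X}, by rw [Finset.coe_singleton]; exact RatFunc.adjoin_X⟩,
    hilbertType_of_hpf (hpf_ratFunc (hilbNR_of_fg hk))⟩

theorem regular_ratFunc [CharZero k]
    (hk : ∃ S : Finset k, IntermediateField.adjoin ℚ (S : Set k) = ⊤) [Finite Γ]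
    [FiniteDimensional k L] [IsGalois k L] {π : Γ →* (L ≃ₐ[k] L)} {ρ : Γ →* (K ≃ₐ[k] K)}
    (h : IsSemilinear π ρ) (hr : RegularOver π (RatFunc k)) : HilbertType k (inv ρ) := by
  have h1 : ∃ (S : Type) (_ : Field S) (_ : Algebra k S), FinGen k S ∧ HilbertType k S ∧
      RegularOver π S := ⟨RatFunc k, inferInstance, inferInstance,
    (hilbertType_ratFunc hk).1, (hilbertType_ratFunc hk).2, hr⟩
  exact ((tfae_rel hk h).out 0 3).2 h1

theorem regularOver_of_regSol {π : Γ →* (L ≃ₐ[k] L)}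
    (h : Pool.Agent.H391R2.T4.RegSol k L Γ π) : RegularOver π (RatFunc k) := by
  obtain ⟨F, _, _, _, _, _, _, h1, h2, γ, h3, h4⟩ := h
  exact ⟨F, inferInstance, inferInstance, inferInstance, inferInstance, inferInstance,
    inferInstance, γ, h1, h2, h3, fun a ha => h4 a (ha.extendScalars (algebraMap k L).injective)⟩

/-- a regular solution over `k(T)` of the dominating split embedding problem is sufficient -/
theorem hilbertType_of_weak [CharZero k]
    (hk : ∃ S : Finset k, IntermediateField.adjoin ℚ (S : Set k) = ⊤) [Finite Γ]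
    [FiniteDimensional k L] [IsGalois k L] {π : Γ →* (L ≃ₐ[k] L)} {ρ : Γ →* (K ≃ₐ[k] K)}
    (h : IsSemilinear π ρ) (hw : WeaklySolvable π)
    (H : ∀ (E : IntermediateField k (AlgebraicClosure k)) [FiniteDimensional k E] [IsGalois k E]
      (r : (E ≃ₐ[k] E) →* (L ≃ₐ[k] L)) (s : (E ≃ₐ[k] E) →* Pull π r),
      (∀ x, pullPr π r (s x) = x) → RegularOver (pullPr π r) (RatFunc k)) :
    HilbertType k (inv ρ) := by
  obtain ⟨E, hE1, hE2, r, s, -, hs, -, hb⟩ := split_of_weak hw
  refine ((tfae_rel hk h).out 0 2).2 fun L' hL' => hb L' ?_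
  have := hL'
  exact beyond_of_regular (pullPr π r) (hilbertType_ratFunc hk).1
    (fun X _ p _ hX => ((hilbertType_ratFunc hk).2 X p hX).1) (H E r s hs) L'

end

end Pool.Agent.Helper44q.E
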