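import Pool.Agent.Helper44q.E.Key
import Pool.Agent.Helper44q.Q.Quot

/-! The Hilbert property of a quotient from the Hilbert property of its twists by solutions of an
embedding problem. -/

set_option autoImplicit false
set_option linter.unusedSectionVars false

namespace Pool.Agent.Helper44q.E

open IntermediateField Polynomial
open Pool.Agent.Helper44q.Q (overK mem_overK mem_range_of_fixed inv mem_inv isGalois_inv finite_inv
  Over exists_lift Diag hom_ext_sup range_eq hpf_restrict)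

section

variable {k Γ : Type} [Field k] [Group Γ] {L : IntermediateField k (AlgebraicClosure k)}
  {K : Type} [Field K] [Algebra k K] [Algebra L K] [IsScalarTower k L K]

/-- `T` is the field of functions of the twist, by the Galois extension `E / k` with group `Γ` which
contains `L`, of the variety over `L` with function field `K`: there is a compositum `Ω` of `E` and
`K` over `L` and an action of `Γ` on it, through the Galois group of `E` and the given action on `K`,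
such that `T` is the field of the elements of `Ω` fixed by `Γ`. -/
def IsTwist (ρ : Γ →* (K ≃ₐ[k] K)) {E : IntermediateField k (AlgebraicClosure k)}
    (φ : Γ ≃* (E ≃ₐ[k] E)) (T : Type) [Field T] [Algebra k T] : Prop :=
  ∃ (Ω : Type) (_ : Field Ω) (_ : Algebra k Ω) (i : E →ₐ[k] Ω) (j : K →ₐ[k] Ω) (t : T →ₐ[k] Ω)
    (α : Γ →* (Ω ≃ₐ[k] Ω)), i.fieldRange ⊔ j.fieldRange = ⊤ ∧
    (∀ (z : E) (y : L), (z : AlgebraicClosure k) = y → i z = j (algebraMap L K y)) ∧
    (∀ g a, α g (i a) = i (φ g a)) ∧ (∀ g a, α g (j a) = j (ρ g a)) ∧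
    ∀ z : Ω, z ∈ t.fieldRange ↔ ∀ g, α g z = z

/-- The twist, embedded in an algebraic closure of `K`. -/
theorem twist_embed {A : Type} [Field A] [Algebra K A] [Algebra k A] [IsScalarTower k K A]
    [IsAlgClosure K A] {E : IntermediateField k (AlgebraicClosure k)}
    [FiniteDimensional k E] (ρ : Γ →* (K ≃ₐ[k] K)) (φ : Γ ≃* (E ≃ₐ[k] E)) (T : Type)
    [Field T] [Algebra k T] (h : IsTwist (L := L) ρ φ T) :
    ∃ (e : E →ₐ[k] A) (v : T →ₐ[k] A) (ι : inv ρ →ₐ[k] T),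
      (∀ (z : E) (y : L), (z : AlgebraicClosure k) = y →
        e z = algebraMap K A (algebraMap L K y)) ∧
      (∀ s : inv ρ, v (ι s) = algebraMap K A s) ∧
      ∀ σ : A ≃ₐ[k] A, ∀ g, Over ρ σ g → (∀ a : E, σ (e a) = e (φ g a)) → ∀ z, σ (v z) = v z := by
  obtain ⟨Ω, _, _, i, j, t, α, htop, hij, hi, hj, ht⟩ := h
  let _ : Algebra K Ω := (j : K →+* Ω).toAlgebra
  have hjK : ∀ a, algebraMap K Ω a = j a := fun a => rfl
  have : IsScalarTower k K Ω := IsScalarTower.of_algebraMap_eq fun c => (j.commutes c).symm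
  have hcl : IsAlgClosed A := IsAlgClosure.isAlgClosed K
  have halg : Algebra.IsAlgebraic K Ω := by
    have h1 : i.fieldRange ⊔ j.fieldRange ≤ (algebraicClosure K Ω).restrictScalars k := by
      refine sup_le ?_ ?_
      · rintro z ⟨a, rfl⟩
        have h2 : IsAlgebraic k (i a) := (Algebra.IsAlgebraic.isAlgebraic a).algHom i
        have h3 : IsAlgebraic K (i a) := h2.extendScalars (algebraMap k K).injective
        exact mem_algebraicClosure_iff.2 h3
      · rintro z ⟨a, rfl⟩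
        exact mem_algebraicClosure_iff.2 (isAlgebraic_algebraMap (A := Ω) a)
    rw [htop] at h1
    exact ⟨fun z => mem_algebraicClosure_iff.1 (h1 (IntermediateField.mem_top (x := z)))⟩
  let u : Ω →ₐ[K] A := IsAlgClosed.lift
  let u' : Ω →ₐ[k] A := u.restrictScalars k
  have hS : ∀ s : inv ρ, j s ∈ t.fieldRange := by
    intro s
    rw [ht]
    intro g
    rw [hj, mem_inv.1 s.2]
  let j' : inv ρ →ₐ[k] t.fieldRange :=
    { toFun := fun s => ⟨j s, hS s⟩
      map_one' := Subtype.ext (by change j _ = 1; simp)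
      map_mul' := fun a b => Subtype.ext (by change j _ = j _ * j _; simp)
      map_zero' := Subtype.ext (by change j _ = 0; simp)
      map_add' := fun a b => Subtype.ext (by change j _ = j _ + j _; simp)
      commutes' := fun c => Subtype.ext (j.commutes c) }
  let ε : T ≃ₐ[k] t.fieldRange := AlgEquiv.ofInjectiveField t
  refine ⟨u'.comp i, u'.comp t, (ε.symm : t.fieldRange →ₐ[k] T).comp j', fun z y hzy => ?_,
    fun s => ?_, ?_⟩
  · change u (i z) = _
    rw [hij z y hzy, ← hjK, u.commutes]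
  · change u (t (ε.symm (j' s))) = _
    have h1 : t (ε.symm (j' s)) = j s := by
      have h2 := congrArg Subtype.val (ε.apply_symm_apply (j' s))
      exact h2
    rw [h1, ← hjK, u.commutes]
  · intro σ g hσ hσ' z
    have h1 : ∀ y : Ω, ((σ : A →ₐ[k] A).comp u') y = (u'.comp (α g : Ω →ₐ[k] Ω)) y := by
      refine hom_ext_sup htop _ _ ?_ ?_
      · rintro y ⟨a, rfl⟩
        have h2 := hσ' a
        change σ (u (i a)) = u (i (φ g a)) at h2
        change σ (u (i a)) = u (α g (i a))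
        rw [h2, hi]
      · rintro y ⟨a, rfl⟩
        change σ (u (j a)) = u (α g (j a))
        rw [hj, ← hjK, ← hjK, u.commutes, u.commutes, hσ]
    have h2 := h1 (t z)
    change σ (u (t z)) = u (α g (t z)) at h2
    have h3 : α g (t z) = t z := (ht (t z)).1 ⟨z, rfl⟩ g
    rw [h3] at h2
    exact h2

/-- the condition on the Galois extension `E` of `k` with group `Γ`: it contains `L` and induces `π` -/
def Ind (π : Γ →* (L ≃ₐ[k] L)) (E : IntermediateField k (AlgebraicClosure k))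
    (φ : Γ ≃* (E ≃ₐ[k] E)) : Prop :=
  L ≤ E ∧ ∀ g (z : E) (y : L), (z : AlgebraicClosure k) = y →
    (φ g z : AlgebraicClosure k) = π g y

/-- two twists by solutions which are disjoint over `L` -/
theorem two_twists [Finite Γ] [CharZero k] (ρ : Γ →* (K ≃ₐ[k] K)) (π : Γ →* (L ≃ₐ[k] L))
    (hπ : ∀ g (z : L), ρ g (algebraMap L K z) = algebraMap L K (π g z))
    (hreg : ∀ a : K, IsAlgebraic k a → a ∈ Set.range (algebraMap L K))
    (E₁ E₂ : IntermediateField k (AlgebraicClosure k)) [FiniteDimensional k E₁] [IsGalois k E₁]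
    [FiniteDimensional k E₂] [IsGalois k E₂] (hE : E₁ ⊓ E₂ ≤ L)
    (φ₁ : Γ ≃* (E₁ ≃ₐ[k] E₁)) (φ₂ : Γ ≃* (E₂ ≃ₐ[k] E₂)) (hφ₂ : Ind π E₂ φ₂)
    (T₁ T₂ : Type) [Field T₁] [Field T₂] [Algebra k T₁] [Algebra k T₂]
    (e₁ : E₁ →ₐ[k] AlgebraicClosure K) (v₁ : T₁ →ₐ[k] AlgebraicClosure K)
    (ι₁ : inv ρ →ₐ[k] T₁) (h1 : ∀ s : inv ρ, v₁ (ι₁ s) = algebraMap K (AlgebraicClosure K) s)
    (h1' : ∀ σ : AlgebraicClosure K ≃ₐ[k] AlgebraicClosure K, ∀ g, Over ρ σ g →
      (∀ a : E₁, σ (e₁ a) = e₁ (φ₁ g a)) → ∀ z, σ (v₁ z) = v₁ z)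
    (e₂ : E₂ →ₐ[k] AlgebraicClosure K) (v₂ : T₂ →ₐ[k] AlgebraicClosure K)
    (h20 : ∀ (z : E₂) (y : L), (z : AlgebraicClosure k) = y →
        e₂ z = algebraMap K (AlgebraicClosure K) (algebraMap L K y))
    (ι₂ : inv ρ →ₐ[k] T₂) (h2 : ∀ s : inv ρ, v₂ (ι₂ s) = algebraMap K (AlgebraicClosure K) s)
    (h2' : ∀ σ : AlgebraicClosure K ≃ₐ[k] AlgebraicClosure K, ∀ g, Over ρ σ g →
      (∀ a : E₂, σ (e₂ a) = e₂ (φ₂ g a)) → ∀ z, σ (v₂ z) = v₂ z)
    (Q : (inv ρ)[X]) (hQ : Irreducible Q) (hm : Q.Monic) (x₁ : T₁) (x₂ : T₂)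
    (hx₁ : (Q.map (ι₁ : inv ρ →+* T₁)).eval x₁ = 0)
    (hx₂ : (Q.map (ι₂ : inv ρ →+* T₂)).eval x₂ = 0) : ∃ a : inv ρ, Q.eval a = 0 := by
  have hcK : CharZero K := charZero_of_injective_algebraMap (algebraMap k K).injective
  -- an embedding of the algebraic closure of `k` over `L`
  have halgL : Algebra.IsAlgebraic L (AlgebraicClosure k) := Algebra.IsAlgebraic.tower_top (K := k) L
  obtain ⟨J, hJ⟩ := exists_ext (k := k) (L := L) (Ω := AlgebraicClosure k)
    ((IsScalarTower.toAlgHom k K (AlgebraicClosure K)).comp (IsScalarTower.toAlgHom k L K))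
  replace hJ : ∀ y : L, J (y : AlgebraicClosure k) =
      algebraMap K (AlgebraicClosure K) (algebraMap L K y) := hJ
  have e1 : e₁.fieldRange = (J.comp E₁.val).fieldRange := range_eq _ _
  have e2 : e₂.fieldRange = (J.comp E₂.val).fieldRange := range_eq _ _
  have hinf : e₁.fieldRange ⊓ e₂.fieldRange ≤ con k L K (AlgebraicClosure K) := by
    rw [e1, e2]
    rintro z ⟨⟨a, ha⟩, ⟨b, hb⟩⟩
    have h3 : (a : AlgebraicClosure k) = b := J.injective (ha.trans hb.symm)
    have h4 : (a : AlgebraicClosure k) ∈ E₁ ⊓ E₂ := ⟨a.2, h3 ▸ b.2⟩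
    refine mem_con.2 ⟨⟨a, hE h4⟩, ?_⟩
    rw [← ha, ← hJ]
    rfl
  have hcon : con k L K (AlgebraicClosure K) ≤ e₂.fieldRange := by
    rw [e2]
    intro z hz
    obtain ⟨y, hy⟩ := mem_con.1 hz
    refine ⟨⟨y, hφ₂.1 y.2⟩, ?_⟩
    rw [← hy, ← hJ]
    rfl
  let ε₁ : E₁ ≃ₐ[k] e₁.fieldRange := AlgEquiv.ofInjectiveField e₁
  let ε₂ : E₂ ≃ₐ[k] e₂.fieldRange := AlgEquiv.ofInjectiveField e₂
  have hε₁ : ∀ a, (ε₁ a : AlgebraicClosure K) = e₁ a := fun a => rfl
  have hε₂ : ∀ a, (ε₂ a : AlgebraicClosure K) = e₂ a := fun a => rfl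
  have : FiniteDimensional k e₁.fieldRange := ε₁.toLinearEquiv.finiteDimensional
  have : FiniteDimensional k e₂.fieldRange := ε₂.toLinearEquiv.finiteDimensional
  have : IsGalois k e₁.fieldRange := IsGalois.of_algEquiv ε₁
  have : IsGalois k e₂.fieldRange := IsGalois.of_algEquiv ε₂
  let ψ₁ : Γ ≃* (e₁.fieldRange ≃ₐ[k] e₁.fieldRange) := φ₁.trans (AlgEquiv.autCongr ε₁)
  let ψ₂ : Γ ≃* (e₂.fieldRange ≃ₐ[k] e₂.fieldRange) := φ₂.trans (AlgEquiv.autCongr ε₂)
  have hψ₁ : ∀ g a, ψ₁ g (ε₁ a) = ε₁ (φ₁ g a) := fun g a => by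
    change ε₁ (φ₁ g (ε₁.symm (ε₁ a))) = _
    rw [AlgEquiv.symm_apply_apply]
  have hψ₂ : ∀ g a, ψ₂ g (ε₂ a) = ε₂ (φ₂ g a) := fun g a => by
    change ε₂ (φ₂ g (ε₂.symm (ε₂ a))) = _
    rw [AlgEquiv.symm_apply_apply]
  have hψπ : ∀ g (z : e₂.fieldRange) (y : L),
      (z : AlgebraicClosure K) = algebraMap K (AlgebraicClosure K) (algebraMap L K y) →
      (ψ₂ g z : AlgebraicClosure K) =
        algebraMap K (AlgebraicClosure K) (algebraMap L K (π g y)) := by
    intro g z y hzy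
    obtain ⟨a, rfl⟩ := ε₂.surjective z
    have h3 : a = ⟨y, hφ₂.1 y.2⟩ := by
      apply e₂.toRingHom.injective
      change e₂ a = e₂ ⟨y, hφ₂.1 y.2⟩
      rw [h20 ⟨y, hφ₂.1 y.2⟩ y rfl, ← hzy, hε₂]
    rw [hψ₂, hε₂, h3]
    exact h20 _ _ (hφ₂.2 g _ y rfl)
  have key1 : ∀ σ, Diag ρ e₁.fieldRange ψ₁ σ → σ (v₁ x₁) = v₁ x₁ := by
    rintro σ ⟨g, hσ, hσ'⟩
    refine h1' σ g hσ (fun a => ?_) x₁
    have h3 := hσ' (ε₁ a)
    rw [hψ₁] at h3
    exact h3
  have key2 : ∀ σ, Diag ρ e₂.fieldRange ψ₂ σ → σ (v₂ x₂) = v₂ x₂ := by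
    rintro σ ⟨g, hσ, hσ'⟩
    refine h2' σ g hσ (fun a => ?_) x₂
    have h3 := hσ' (ε₂ a)
    rw [hψ₂] at h3
    exact h3
  have root1 : aeval (v₁ x₁) Q = 0 := by
    have h3 : (v₁ : T₁ →+* AlgebraicClosure K).comp (ι₁ : inv ρ →+* T₁) =
        algebraMap (inv ρ) (AlgebraicClosure K) := by
      ext s
      exact h1 s
    have h4 := hom_eval₂ Q (ι₁ : inv ρ →+* T₁) (v₁ : T₁ →+* AlgebraicClosure K) x₁
    rw [← eval_map, hx₁, map_zero] at h4
    rw [aeval_def, ← h3]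
    exact h4.symm
  have root2 : aeval (v₂ x₂) Q = 0 := by
    have h3 : (v₂ : T₂ →+* AlgebraicClosure K).comp (ι₂ : inv ρ →+* T₂) =
        algebraMap (inv ρ) (AlgebraicClosure K) := by
      ext s
      exact h2 s
    have h4 := hom_eval₂ Q (ι₂ : inv ρ →+* T₂) (v₂ : T₂ →+* AlgebraicClosure K) x₂
    rw [← eval_map, hx₂, map_zero] at h4
    rw [aeval_def, ← h3]
    exact h4.symm
  have hconj : IsConjRoot (inv ρ) (v₁ x₁) (v₂ x₂) := by
    rw [isConjRoot_def, ← minpoly.eq_of_irreducible_of_monic hQ root1 hm,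
      ← minpoly.eq_of_irreducible_of_monic hQ root2 hm]
  obtain ⟨a, ha, ha'⟩ := key (A := AlgebraicClosure K) ρ π hπ hreg _ _ hinf hcon ψ₁ ψ₂ hψπ _ _
    key1 key2 hconj
  refine ⟨⟨a, ha⟩, ?_⟩
  rw [← ha'] at root2
  have h5 : algebraMap (inv ρ) (AlgebraicClosure K) (Q.eval ⟨a, ha⟩) = 0 := by
    rw [← root2, aeval_def]
    exact (eval₂_at_apply (algebraMap (inv ρ) (AlgebraicClosure K)) (⟨a, ha⟩ : inv ρ)).symm
  exact (map_eq_zero _).1 h5

/-- solutions which are pairwise disjoint over `L` and whose twists have the Hilbert property -/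
theorem quot [Finite Γ] [CharZero k] (ρ : Γ →* (K ≃ₐ[k] K)) (π : Γ →* (L ≃ₐ[k] L))
    (hπ : ∀ g (z : L), ρ g (algebraMap L K z) = algebraMap L K (π g z))
    (hreg : ∀ a : K, IsAlgebraic k a → a ∈ Set.range (algebraMap L K))
    (H : ∀ r : ℕ, ∃ (E : Fin r → IntermediateField k (AlgebraicClosure k))
      (φ : ∀ i, Γ ≃* (E i ≃ₐ[k] E i)), (∀ i, FiniteDimensional k (E i)) ∧
      (∀ i, IsGalois k (E i)) ∧ (∀ i j, i ≠ j → E i ⊓ E j ≤ L) ∧
      (∀ i, Ind π (E i) (φ i)) ∧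
      ∀ i, ∃ (T : Type) (_ : Field T) (_ : Algebra k T),
        IsTwist (L := L) ρ (φ i) T ∧ W560.HP.HPF k T) :
    W560.HP.HPF k (inv ρ) := by
  classical
  have hcK : CharZero K := charZero_of_injective_algebraMap (algebraMap k K).injective
  intro q P hP S₀
  have hP0 : ∀ j, P j ≠ 0 := fun j h => hP j 0 (by rw [h, eval_zero])
  obtain ⟨L', hL⟩ : ∃ L' : Finset (inv ρ)[X], ∀ Q, Q ∈ L' ↔
      ∃ j, Q ∈ UniqueFactorizationMonoid.normalizedFactors (P j) := by
    refine ⟨Finset.univ.biUnion fun j : Fin q =>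
      (UniqueFactorizationMonoid.normalizedFactors (P j)).toFinset, fun Q => ?_⟩
    rw [Finset.mem_biUnion]
    simp only [Finset.mem_univ, true_and, Multiset.mem_toFinset]
  have hLi : ∀ Q ∈ L', Irreducible Q ∧ Q.Monic ∧ ∀ a : inv ρ, Q.eval a ≠ 0 := by
    intro Q hQ
    obtain ⟨j, hj⟩ := (hL Q).1 hQ
    have h1 := UniqueFactorizationMonoid.irreducible_of_normalized_factor Q hj
    refine ⟨h1, ?_, fun a ha => ?_⟩
    · have h2 := UniqueFactorizationMonoid.normalize_normalized_factor Q hj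
      rw [← h2]
      exact monic_normalize h1.ne_zero
    · obtain ⟨R, hR⟩ := UniqueFactorizationMonoid.dvd_of_mem_normalizedFactors hj
      exact hP j a (by rw [hR, eval_mul, ha, zero_mul])
  obtain ⟨E, φ, hfin, hgal, hdis, hind, hT⟩ := H (L'.card + 1)
  choose T iT1 iT2 hT1 hT2 using hT
  choose e v ι h0 hι hv using fun i => by
    have := hfin i
    exact twist_embed (A := AlgebraicClosure K) ρ (φ i) (T i) (hT1 i)
  -- one of the twists has no roots
  obtain ⟨i, hi⟩ : ∃ i, ∀ Q ∈ L', ∀ x : T i, (Q.map (ι i : inv ρ →+* T i)).eval x ≠ 0 := by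
    by_contra hcon
    push Not at hcon
    choose Q hQ x hx using hcon
    obtain ⟨i, i', hne, heq⟩ := Fintype.exists_ne_map_eq_of_card_lt
      (fun i => (⟨Q i, hQ i⟩ : L')) (by simp)
    have heq' : Q i = Q i' := congrArg Subtype.val heq
    have := hfin i
    have := hgal i
    have := hfin i'
    have := hgal i'
    obtain ⟨a, ha⟩ := two_twists ρ π hπ hreg (E i) (E i') (hdis i i' hne) (φ i) (φ i') (hind i')
      (T i) (T i') (e i) (v i) (ι i) (hι i) (hv i) (e i') (v i') (h0 i') (ι i') (hι i') (hv i')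
      (Q i) (hLi _ (hQ i)).1 (hLi _ (hQ i)).2.1 (x i) (x i') (hx i) (by rw [heq']; exact hx i')
    exact (hLi _ (hQ i)).2.2 a ha
  refine hpf_restrict (ι i) (hT2 i) q P (fun j x hx => ?_) S₀
  have h1 : (UniqueFactorizationMonoid.normalizedFactors (P j)).prod ∣ P j :=
    (UniqueFactorizationMonoid.prod_normalizedFactors (hP0 j)).dvd
  have h2 : P j = C (P j).leadingCoeff *
      (UniqueFactorizationMonoid.normalizedFactors (P j)).prod :=
    (leadingCoeff_mul_prod_normalizedFactors (P j)).symm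
  rw [h2, Polynomial.map_mul, eval_mul, Polynomial.map_C, eval_C] at hx
  rcases mul_eq_zero.1 hx with h3 | h3
  · rw [map_eq_zero, leadingCoeff_eq_zero] at h3
    exact hP0 j h3
  · rw [← coe_mapRingHom, map_multiset_prod, ← coe_evalRingHom, map_multiset_prod,
      Multiset.map_map, Multiset.prod_eq_zero_iff, Multiset.mem_map] at h3
    obtain ⟨Q, hQ, hQ'⟩ := h3
    exact hi Q ((hL Q).2 ⟨j, hQ⟩) x hQ'

end

end Pool.Agent.Helper44q.E
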