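import Pool.Agent.Helper44q.Q.Gal

/-! Automorphisms of the algebraic closure of a function field with constant field `L`. -/

set_option autoImplicit false

namespace Pool.Agent.Helper44q.E

open IntermediateField
open Pool.Agent.Helper44q.Q (overK mem_overK mem_range_of_fixed)

/-- an embedding of `L` in an algebraically closed field extends to an algebraic extension -/
theorem exists_ext {k L Ω A : Type} [Field k] [Field L] [Field Ω] [Field A] [Algebra k L]
    [Algebra k Ω] [Algebra L Ω] [IsScalarTower k L Ω] [Algebra k A] [IsAlgClosed A]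
    [Algebra.IsAlgebraic L Ω] (i : L →ₐ[k] A) :
    ∃ J : Ω →ₐ[k] A, ∀ y, J (algebraMap L Ω y) = i y := by
  let _ : Algebra L A := (i : L →+* A).toAlgebra
  have : IsScalarTower k L A := IsScalarTower.of_algebraMap_eq fun c => (i.commutes c).symm
  let J : Ω →ₐ[L] A := IsAlgClosed.lift
  exact ⟨J.restrictScalars k, fun y => J.commutes y⟩

theorem exists_ext' {k L Ω A : Type} [Field k] [Field L] [Field Ω] [Field A] [Algebra k L]
    [Algebra k Ω] [Algebra k A] [IsAlgClosed A] [Algebra.IsAlgebraic k Ω] (lam : L →ₐ[k] Ω)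
    (i : L →ₐ[k] A) : ∃ J : Ω →ₐ[k] A, ∀ y, J (lam y) = i y := by
  let _ : Algebra L Ω := (lam : L →+* Ω).toAlgebra
  have : IsScalarTower k L Ω := IsScalarTower.of_algebraMap_eq fun c => (lam.commutes c).symm
  have : Algebra.IsAlgebraic L Ω := Algebra.IsAlgebraic.tower_top (K := k) L
  exact exists_ext i

section lifts

variable {k A : Type} [Field k] [Field A] [Algebra k A]

/-- a subgroup of automorphisms of `A` whose fixed elements in the finite Galois extension `E` are in
`F` induces all automorphisms of `E` over `F` -/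
theorem exists_restrict (E F : IntermediateField k A) [FiniteDimensional k E] [IsGalois k E]
    (D : Subgroup (A ≃ₐ[k] A)) (hD : ∀ z ∈ E, (∀ σ ∈ D, σ z = z) → z ∈ F) (a : E ≃ₐ[k] E)
    (ha : ∀ z : E, (z : A) ∈ F → a z = z) : ∃ σ ∈ D, ∀ z : E, σ (z : A) = (a z : A) := by
  have hcom : ∀ (σ : A ≃ₐ[k] A) (z : E), ((AlgEquiv.restrictNormalHom E σ z : E) : A) = σ z :=
    fun σ z => AlgEquiv.restrictNormal_commutes σ E z
  let H : Subgroup (E ≃ₐ[k] E) := D.map (AlgEquiv.restrictNormalHom E)
  have h1 : a ∈ H := by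
    rw [← fixingSubgroup_fixedField H, IntermediateField.mem_fixingSubgroup_iff]
    intro z hz
    rw [mem_fixedField_iff] at hz
    refine ha z (hD z z.2 fun σ hσ => ?_)
    have := hz _ ⟨σ, hσ, rfl⟩
    rw [← hcom, this]
  obtain ⟨σ, hσ, rfl⟩ := h1
  exact ⟨σ, hσ, fun z => (hcom σ z).symm⟩

end lifts

section main

variable {k L K A : Type} [Field k] [Field L] [Field K] [Field A] [Algebra k L] [Algebra k K]
  [Algebra L K] [IsScalarTower k L K] [Algebra K A] [Algebra k A] [IsScalarTower k K A]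

/-- the image of the field of constants -/
def con (k L K A : Type) [Field k] [Field L] [Field K] [Field A] [Algebra k L] [Algebra k K]
    [Algebra L K] [IsScalarTower k L K] [Algebra K A] [Algebra k A] [IsScalarTower k K A] :
    IntermediateField k A :=
  ((IsScalarTower.toAlgHom k K A).comp (IsScalarTower.toAlgHom k L K)).fieldRange

theorem mem_con {z : A} : z ∈ con k L K A ↔ ∃ l : L, algebraMap K A (algebraMap L K l) = z :=
  Iff.rfl

/-- restriction to one finite Galois extension of `k` -/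
theorem exists_over_one [IsGalois K A]
    (hreg : ∀ a : K, IsAlgebraic k a → a ∈ Set.range (algebraMap L K))
    (E : IntermediateField k A) [FiniteDimensional k E] [IsGalois k E] (a : E ≃ₐ[k] E)
    (ha : ∀ z : E, (z : A) ∈ con k L K A → a z = z) :
    ∃ σ ∈ overK k K A, ∀ z : E, σ (z : A) = (a z : A) := by
  refine exists_restrict E (con k L K A) _ (fun z hz h => ?_) a ha
  obtain ⟨y, rfl⟩ := mem_range_of_fixed h
  have h1 : IsAlgebraic k (algebraMap K A y) := by
    have : IsAlgebraic k (⟨_, hz⟩ : E) := Algebra.IsAlgebraic.isAlgebraic _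
    exact this.algHom E.val
  have h2 : IsAlgebraic k y := (isAlgebraic_algebraMap_iff (algebraMap K A).injective).1 h1
  obtain ⟨c, rfl⟩ := hreg y h2
  exact mem_con.2 ⟨c, rfl⟩

/-- restriction to two finite Galois extensions of `k` which are linearly disjoint over `L` -/
theorem exists_over_two [IsGalois K A]
    (hreg : ∀ a : K, IsAlgebraic k a → a ∈ Set.range (algebraMap L K))
    (E₁ E₂ : IntermediateField k A) [FiniteDimensional k E₁] [IsGalois k E₁]
    [FiniteDimensional k E₂] [IsGalois k E₂] (hE : E₁ ⊓ E₂ ≤ con k L K A)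
    (hE₂ : con k L K A ≤ E₂) (a : E₁ ≃ₐ[k] E₁) (ha : ∀ z : E₁, (z : A) ∈ con k L K A → a z = z) :
    ∃ σ ∈ overK k K A, (∀ z : E₁, σ (z : A) = (a z : A)) ∧ ∀ z ∈ E₂, σ z = z := by
  let D : Subgroup (A ≃ₐ[k] A) := overK k K A ⊓ E₂.fixingSubgroup
  have hD : ∀ z ∈ E₁, (∀ σ ∈ D, σ z = z) → z ∈ con k L K A := by
    intro z hz h
    have hz' : z ∈ E₁ ⊔ E₂ := le_sup_left (a := E₁) hz
    -- `z` is fixed by the automorphisms of `E₁ E₂` over `E₂`
    let E₂' : IntermediateField k ↥(E₁ ⊔ E₂) := IntermediateField.restrict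
      (le_sup_right : E₂ ≤ E₁ ⊔ E₂)
    have h1 : (⟨z, hz'⟩ : ↥(E₁ ⊔ E₂)) ∈ E₂' := by
      rw [← IsGalois.fixedField_fixingSubgroup E₂', mem_fixedField_iff]
      intro b hb
      have hb' : ∀ x : ↥(E₁ ⊔ E₂), (x : A) ∈ E₂ → b x = x := fun x hx =>
        (IntermediateField.mem_fixingSubgroup_iff _ _).1 hb _
          ((IntermediateField.mem_restrict _ _).2 hx)
      obtain ⟨σ, hσ, hσ'⟩ := exists_over_one (K := K) hreg (E₁ ⊔ E₂) b
        (fun x hx => hb' x (hE₂ hx))
      have h2 : σ z = z := by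
        refine h σ ⟨hσ, (IntermediateField.mem_fixingSubgroup_iff _ _).2 ?_⟩
        intro x hx
        have hx' : x ∈ E₁ ⊔ E₂ := le_sup_right (a := E₁) hx
        have h3 := hσ' ⟨x, hx'⟩
        rw [hb' ⟨x, hx'⟩ hx] at h3
        exact h3
      have h5 := hσ' ⟨z, hz'⟩
      exact Subtype.ext (h5.symm.trans h2)
    have h6 : z ∈ E₂ := (IntermediateField.mem_restrict _ _).1 h1
    exact hE ⟨hz, h6⟩
  obtain ⟨σ, hσ, h⟩ := exists_restrict E₁ _ D hD a ha
  exact ⟨σ, hσ.1, h, fun z hz => (IntermediateField.mem_fixingSubgroup_iff _ _).1 hσ.2 z hz⟩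

end main

end Pool.Agent.Helper44q.E
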