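import Pool.Agent.Helper44q.E.Lin
import Pool.Agent.Helper44q.E.Ep
import Pool.Agent.Helper44q.Q.Main

/-! Semilinear actions: basic facts, existence, weak solutions. -/

set_option autoImplicit false

namespace Pool.Agent.Helper44q.E

open IntermediateField
open W560.HP (HilbNR HPF)
open Pool.Agent.Helper44q.Q

section

variable {k Γ : Type} [Field k] [Group Γ] {L : IntermediateField k (AlgebraicClosure k)}

/-- The action of `Γ` on the field `K` over `k` is semilinear and faithful: `K = L(t_1, …, t_n)` is the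
field of rational functions on a vector space over `L` with the linear forms `∑ c_i t_i`, `Γ` acts
on `L` through `π`, and `Γ` maps linear forms to linear forms. -/
def IsSemilinear (π : Γ →* (L ≃ₐ[k] L)) {K : Type} [Field K] [Algebra k K] [Algebra L K]
    (ρ : Γ →* (K ≃ₐ[k] K)) : Prop :=
  Function.Injective ρ ∧ (∀ g (z : L), ρ g (algebraMap L K z) = algebraMap L K (π g z)) ∧
  ∃ (n : ℕ) (t : Fin n → K), AlgebraicIndependent L t ∧
    IntermediateField.adjoin L (Set.range t) = ⊤ ∧
    ∀ (g : Γ) (j : Fin n), ρ g (t j) ∈ Submodule.span L (Set.range t)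

/-- a finite extension of a finitely generated field is finitely generated -/
theorem fg_ext [CharZero k] (hk : ∃ S : Finset k, IntermediateField.adjoin ℚ (S : Set k) = ⊤)
    (L : Type) [Field L] [Algebra k L] [FiniteDimensional k L] [CharZero L] :
    ∃ S : Finset L, IntermediateField.adjoin ℚ (S : Set L) = ⊤ := by
  have h1 : Algebra.EssFiniteType ℚ k := IntermediateField.fg_top_iff.1 hk
  have h2 : Algebra.EssFiniteType ℚ L := Algebra.EssFiniteType.comp ℚ k L
  exact IntermediateField.fg_top_iff.2 h2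

/-- the constants in a field of rational functions over `L` -/
theorem IsSemilinear.reg [CharZero k]
    (hk : ∃ S : Finset k, IntermediateField.adjoin ℚ (S : Set k) = ⊤) [FiniteDimensional k L]
    {π : Γ →* (L ≃ₐ[k] L)} {K : Type} [Field K] [Algebra k K] [Algebra L K] [IsScalarTower k L K]
    {ρ : Γ →* (K ≃ₐ[k] K)} (h : IsSemilinear π ρ) (a : K) (ha : IsAlgebraic k a) :
    a ∈ Set.range (algebraMap L K) := by
  obtain ⟨-, -, n, t, ht, htop, -⟩ := h
  have h1 : HilbNR L := hilbNR_of_fg (fg_ext hk L)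
  exact reg_of_hpf (hpf_pure h1 t ht htop) a (ha.extendScalars (algebraMap k L).injective)

theorem IsSemilinear.finGen [FiniteDimensional k L]
    {π : Γ →* (L ≃ₐ[k] L)} {K : Type} [Field K] [Algebra k K] [Algebra L K] [IsScalarTower k L K]
    {ρ : Γ →* (K ≃ₐ[k] K)} (h : IsSemilinear π ρ) : FinGen k K := by
  obtain ⟨-, -, n, t, ht, htop, -⟩ := h
  have h1 : Algebra.EssFiniteType L K := finGen_iff.1 (finGen_pure t htop)
  rw [finGen_iff]
  exact Algebra.EssFiniteType.comp k L K

/-- the action of `Γ` on the rational functions over `L` in variables which are permuted -/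
theorem exists_semilinear [Finite Γ] (π : Γ →* (L ≃ₐ[k] L)) :
    ∃ (n : ℕ) (ρ : Γ →* (Rat' L n ≃ₐ[k] Rat' L n)), IsSemilinear π ρ := by
  obtain ⟨n, ⟨e⟩⟩ := Finite.exists_equiv_fin Γ
  let p : Γ →* Equiv.Perm (Fin n) := (e.permCongrHom : Equiv.Perm Γ →* Equiv.Perm (Fin n)).comp
    (MulAction.toPermHom Γ Γ)
  have hp : Function.Injective p :=
    (e.permCongrHom.injective).comp MulAction.toPerm_injective
  let f : Γ → (Rat' L n ≃ₐ[k] Rat' L n) := fun g =>
    coef1 n (π g) * (perm1 L n (p g)).restrictScalars k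
  have hfC : ∀ g c, f g (algebraMap L (Rat' L n) c) = algebraMap L (Rat' L n) (π g c) := by
    intro g c
    change coef1 n (π g) (perm1 L n (p g) (algebraMap L (Rat' L n) c)) = _
    rw [(perm1 L n (p g)).commutes, coef1_C]
  have hfy : ∀ g i, f g (yv L n i) = yv L n (p g i) := by
    intro g i
    change coef1 n (π g) (perm1 L n (p g) (yv L n i)) = _
    rw [perm1_yv, coef1_yv]
  have hext : ∀ u v : Rat' L n ≃ₐ[k] Rat' L n, (∀ c : L, u (algebraMap L (Rat' L n) c) =
      v (algebraMap L (Rat' L n) c)) → (∀ i, u (yv L n i) = v (yv L n i)) → u = v := by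
    intro u v h1 h2
    apply AlgEquiv.ext
    intro z
    refine hom_ext_sup (gen_E (k := k) (E := L) n) (u : Rat' L n →ₐ[k] Rat' L n)
      (v : Rat' L n →ₐ[k] Rat' L n) ?_ ?_ z
    · rintro _ ⟨a, rfl⟩
      exact h1 a
    · intro y hy
      have h : (adjoin k (Set.range (yv L n))) ≤
          eqField (u : Rat' L n →ₐ[k] Rat' L n) (v : Rat' L n →ₐ[k] Rat' L n) := by
        rw [adjoin_le_iff]
        rintro _ ⟨i, rfl⟩
        exact h2 i
      exact h hy
  let ρ : Γ →* (Rat' L n ≃ₐ[k] Rat' L n) :=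
    { toFun := f
      map_one' := hext _ _ (fun c => by rw [hfC, map_one]; rfl) (fun i => by
        rw [hfy, map_one]; rfl)
      map_mul' := fun g h => hext _ _ (fun c => by
        rw [hfC, AlgEquiv.mul_apply, hfC, hfC, map_mul]; rfl) (fun i => by
        rw [hfy, AlgEquiv.mul_apply, hfy, hfy, map_mul]; rfl) }
  refine ⟨n, ρ, ?_, hfC, n, yv L n, algInd_yv L L n, adjoin_yv L n, fun g j => ?_⟩
  · intro g h hgh
    apply hp
    apply Equiv.ext
    intro i
    have h1 : f g (yv L n i) = f h (yv L n i) := AlgEquiv.congr_fun hgh _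
    rw [hfy, hfy] at h1
    exact (algInd_yv L L n).injective h1
  · change f g (yv L n j) ∈ _
    rw [hfy]
    exact Submodule.subset_span ⟨_, rfl⟩

/-- a weak solution factors through a finite Galois extension which contains `L` -/
theorem IsSolution.factor [CharZero k] [FiniteDimensional k L] {π : Γ →* (L ≃ₐ[k] L)}
    {θ : Gk k →* Γ} (h : IsSolution π θ) :
    ∃ (E : IntermediateField k (AlgebraicClosure k)) (_ : FiniteDimensional k E)
      (_ : IsGalois k E) (χ : (E ≃ₐ[k] E) →* Γ), L ≤ E ∧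
      (∀ σ : Gk k, χ (AlgEquiv.restrictNormalHom E σ) = θ σ) ∧
      ∀ (τ : E ≃ₐ[k] E) (z : E) (y : L), (z : AlgebraicClosure k) = y →
        (τ z : AlgebraicClosure k) = π (χ τ) y := by
  obtain ⟨⟨E₀, hE₀, hker⟩, hπ⟩ := h
  let E : IntermediateField k (AlgebraicClosure k) :=
    IntermediateField.normalClosure k (E₀ ⊔ L : IntermediateField k (AlgebraicClosure k))
      (AlgebraicClosure k)
  have hE1 : FiniteDimensional k E := normalClosure.is_finiteDimensional k _ _
  have hE2 : Normal k E := normalClosure.normal k _ _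
  have hE3 : IsGalois k E := { }
  have hle : E₀ ⊔ L ≤ E := IntermediateField.le_normalClosure _
  let R : Gk k →* (E ≃ₐ[k] E) := AlgEquiv.restrictNormalHom E
  have hR : ∀ (σ : Gk k) (z : E), ((R σ z : E) : AlgebraicClosure k) = σ z := fun σ z =>
    AlgEquiv.restrictNormal_commutes σ E z
  have hRs : Function.Surjective R := AlgEquiv.restrictNormalHom_surjective (AlgebraicClosure k)
  have hRk : R.ker ≤ θ.ker := by
    intro σ hσ
    refine hker ((IntermediateField.mem_fixingSubgroup_iff _ _).2 fun z hz => ?_)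
    have h1 := hR σ ⟨z, (le_sup_left.trans hle) hz⟩
    rw [(MonoidHom.mem_ker).1 hσ] at h1
    exact h1.symm
  let χ : (E ≃ₐ[k] E) →* Γ := R.liftOfSurjective hRs ⟨θ, hRk⟩
  have hχ : ∀ σ, χ (R σ) = θ σ := fun σ =>
    MonoidHom.liftOfRightInverse_comp_apply R _ (Function.rightInverse_surjInv hRs) ⟨θ, hRk⟩ σ
  refine ⟨E, hE1, hE3, χ, le_sup_right.trans hle, hχ, fun τ z y hzy => ?_⟩
  obtain ⟨σ, rfl⟩ := hRs τ
  rw [hχ, hR, hzy, hπ]

/-- a weak solution gives a parametrisation -/
theorem embed_of_weak [CharZero k] [FiniteDimensional k L] {π : Γ →* (L ≃ₐ[k] L)} {K : Type}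
    [Field K] [Algebra k K] [Algebra L K] [IsScalarTower k L K] {ρ : Γ →* (K ≃ₐ[k] K)}
    (h : IsSemilinear π ρ) (hw : WeaklySolvable π) :
    ∃ n : ℕ, Nonempty (inv ρ →ₐ[k] Rat' k n) := by
  obtain ⟨θ, hθ⟩ := hw
  obtain ⟨E, hE1, hE2, χ, hLE, -, hχ⟩ := hθ.factor
  obtain ⟨-, hρ, n, t, ht, htop, hlin⟩ := h
  let _ : Algebra L E := (IntermediateField.inclusion hLE : L →+* E).toAlgebra
  have hLEv : ∀ y : L, ((algebraMap L E y : E) : AlgebraicClosure k) = y := fun _ => rfl
  have : IsScalarTower k L E := IsScalarTower.of_algebraMap_eq fun c => rfl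
  obtain ⟨j, τ, -, -, hj, hτ⟩ := linear_twist (E := E) ρ π hρ t ht htop hlin
    (MulEquiv.refl (E ≃ₐ[k] E)) χ (fun g y => Subtype.ext (hχ g _ y (hLEv y)))
  have hS : ∀ s : inv ρ, j s ∈ τ.fieldRange := by
    intro s
    rw [hτ]
    intro g
    rw [hj, mem_inv.1 s.2]
  let j' : inv ρ →ₐ[k] τ.fieldRange :=
    { toFun := fun s => ⟨j s, hS s⟩
      map_one' := Subtype.ext (by change j _ = 1; simp)
      map_mul' := fun a b => Subtype.ext (by change j _ = j _ * j _; simp)
      map_zero' := Subtype.ext (by change j _ = 0; simp)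
      map_add' := fun a b => Subtype.ext (by change j _ = j _ + j _; simp)
      commutes' := fun c => Subtype.ext (j.commutes c) }
  let ε : Rat' k n ≃ₐ[k] τ.fieldRange := AlgEquiv.ofInjectiveField τ
  exact ⟨n, ⟨(ε.symm : τ.fieldRange →ₐ[k] Rat' k n).comp j'⟩⟩

end

end Pool.Agent.Helper44q.E
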