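import Pool.Agent.Helper44q.E.Ep
import Pool.Agent.Helper44q.E.Rst
import Pool.Agent.Helper44q.Q.Spc

/-! Specialisation of regular solutions of embedding problems over function fields with the Hilbert
property. -/

set_option autoImplicit false

namespace Pool.Agent.Helper44q.E

open IntermediateField AlgebraicGeometry CategoryTheory W560.HP
open Pool.Agent.TH178.HI (HasFunctionField)
open Pool.Agent.Helper44q.Q (overK mem_overK actE spec)

section

variable {k Γ : Type} [Field k] [Group Γ] {L : IntermediateField k (AlgebraicClosure k)}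

/-- The embedding problem `π : Γ → Gal(L/k)` has a regular solution over the extension `S` of `k`:
there is a Galois extension `N` of `S` with group `Γ` which contains `L`, such that `π` is the
restriction to `L` and the elements of `N` which are algebraic over `k` are in `L`. -/
def RegularOver (π : Γ →* (L ≃ₐ[k] L)) (S : Type) [Field S] [Algebra k S] : Prop :=
  ∃ (N : Type) (_ : Field N) (_ : Algebra k N) (_ : Algebra S N) (_ : Algebra L N)
    (_ : IsScalarTower k S N) (_ : IsScalarTower k L N) (θ : (N ≃ₐ[S] N) ≃* Γ),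
    FiniteDimensional S N ∧ IsGalois S N ∧
    (∀ (σ : N ≃ₐ[S] N) (y : L), σ (algebraMap L N y) = algebraMap L N (π (θ σ) y)) ∧
    ∀ a : N, IsAlgebraic k a → a ∈ Set.range (algebraMap L N)

/-- the core of the specialisation theorem -/
theorem beyond_core {S N N' : Type} [Field S] [Field N] [Field N'] [Algebra k S] [Algebra S N]
    [Algebra k N] [Algebra N N'] [Algebra S N'] [Algebra k N'] [IsScalarTower k S N']
    [IsScalarTower k N N'] [IsScalarTower S N N'] [Algebra L N] [CharZero k]
    [FiniteDimensional S N'] [IsGalois S N'] [IsGalois S N] (π : Γ →* (L ≃ₐ[k] L))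
    (θ : (N ≃ₐ[S] N) ≃* Γ)
    (hθ : ∀ (σ : N ≃ₐ[S] N) (y : L), σ (algebraMap L N y) = algebraMap L N (π (θ σ) y))
    (hS : ∃ F : Finset S, IntermediateField.adjoin k (F : Set S) = ⊤)
    (HP : ∀ (X : Scheme.{0}) [IsIntegral X] (p : X ⟶ Spec (CommRingCat.of k))
      [LocallyOfFiniteType p], HasFunctionField k X p S → HilbertProperty k X p)
    (M : IntermediateField k (AlgebraicClosure k)) [FiniteDimensional k M] [IsGalois k M]
    (hLM : L ≤ M) (j : M →ₐ[k] N')
    (hj : ∀ (z : M) (y : L), (z : AlgebraicClosure k) = y →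
      j z = algebraMap N N' (algebraMap L N y))
    (hlift : ∀ g ∈ π.ker, ∃ σ : N' ≃ₐ[S] N', (∀ a : N, σ (algebraMap N N' a) =
      algebraMap N N' (θ.symm g a)) ∧ ∀ z, σ (j z) = j z) :
    SolvableBeyond π M := by
  classical
  obtain ⟨α, hα⟩ := Field.exists_primitive_element k M
  obtain ⟨C, hC, κ, _, _, ψ, Φ, hT, hκ1, hκ2, hΦ⟩ := spec hS HP {j α}
  have hjC : ∀ l : M, j l ∈ C := by
    have h1 : Algebra.adjoin k {α} ≤ C.comap j := by
      rw [Algebra.adjoin_le_iff]
      intro x hx
      rw [Set.mem_singleton_iff.1 hx]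
      exact hT _ (Finset.mem_singleton_self _)
    have h2 : Algebra.adjoin k {α} = ⊤ := by
      rw [← IntermediateField.adjoin_simple_toSubalgebra_of_isAlgebraic
        (Algebra.IsAlgebraic.isAlgebraic α), hα, IntermediateField.top_toSubalgebra]
    intro l
    exact h1 (by rw [h2]; trivial)
  let jC : M →ₐ[k] C := j.codRestrict C hjC
  let lam : M →ₐ[k] κ := ψ.comp jC
  -- an embedding of the residue field
  obtain ⟨u, hu⟩ : ∃ u : κ →ₐ[k] AlgebraicClosure k, ∀ z : M, u (lam z) = z := by
    let _ : Algebra M κ := (lam : M →+* κ).toAlgebra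
    have : IsScalarTower k M κ := IsScalarTower.of_algebraMap_eq fun c => (lam.commutes c).symm
    have : Algebra.IsAlgebraic M κ := Algebra.IsAlgebraic.tower_top (K := k) M
    exact exists_ext (k := k) (L := M) (Ω := κ) M.val
  let _ : Algebra κ (AlgebraicClosure k) := (u : κ →+* AlgebraicClosure k).toAlgebra
  have htow : IsScalarTower k κ (AlgebraicClosure k) :=
    IsScalarTower.of_algebraMap_eq fun c => (u.commutes c).symm
  let R : Gk k →* (κ ≃ₐ[k] κ) := AlgEquiv.restrictNormalHom κ
  have hR : ∀ (σ : Gk k) (x : κ), u (R σ x) = σ (u x) := fun σ x =>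
    AlgEquiv.restrictNormal_commutes σ κ x
  have hRs : Function.Surjective R := AlgEquiv.restrictNormalHom_surjective (AlgebraicClosure k)
  let res : (N' ≃ₐ[S] N') →* (N ≃ₐ[S] N) := AlgEquiv.restrictNormalHom N
  have hres : ∀ (σ : N' ≃ₐ[S] N') (a : N), algebraMap N N' (res σ a) = σ (algebraMap N N' a) :=
    fun σ a => AlgEquiv.restrictNormal_commutes σ N a
  let Θ : Gk k →* Γ := (((θ : (N ≃ₐ[S] N) →* Γ).comp res).comp
    (Φ.symm : (κ ≃ₐ[k] κ) →* (N' ≃ₐ[S] N'))).comp R
  have hΘ : ∀ σ, Θ σ = θ (res (Φ.symm (R σ))) := fun σ => rfl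
  -- the action of the absolute Galois group on the image of `M`
  have hact : ∀ (σ : Gk k) (z : M) (c : C), Φ.symm (R σ) (j z) = c → σ z = u (ψ c) := by
    intro σ z c hc
    have h1 := hΦ (Φ.symm (R σ)) (jC z)
    rw [MulEquiv.apply_symm_apply] at h1
    have h2 : actE C hC (Φ.symm (R σ)) (jC z) = c := Subtype.ext hc
    rw [h2] at h1
    rw [← h1, hR]
    congr 1
    exact (hu z).symm
  refine ⟨Θ, ⟨⟨u.fieldRange, ?_, fun σ hσ => ?_⟩, fun σ y => ?_⟩, ?_, fun g hg => ?_⟩
  · exact (AlgEquiv.ofInjectiveField u).toLinearEquiv.finiteDimensional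
  · have h1 : R σ = 1 := by
      apply AlgEquiv.ext
      intro x
      apply u.toRingHom.injective
      change u (R σ x) = u x
      rw [hR]
      exact (IntermediateField.mem_fixingSubgroup_iff _ _).1 hσ _ ⟨x, rfl⟩
    rw [MonoidHom.mem_ker, hΘ, h1, map_one, map_one, map_one]
  · let z : M := ⟨y, hLM y.2⟩
    let z' : M := ⟨π (Θ σ) y, hLM (π (Θ σ) y).2⟩
    have h1 : Φ.symm (R σ) (j z) = jC z' := by
      change _ = j z'
      rw [hj z y rfl, ← hres, hθ, hj z' (π (Θ σ) y) rfl]
      rfl
    have h2 := hact σ z (jC z') h1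
    exact h2.trans (hu z')
  · exact (θ.surjective.comp ((AlgEquiv.restrictNormalHom_surjective N').comp
      Φ.symm.surjective)).comp hRs
  · obtain ⟨τ, hτ, hτ'⟩ := hlift g hg
    obtain ⟨σ, hσ⟩ := hRs (Φ τ)
    have h1 : Φ.symm (R σ) = τ := by rw [hσ, MulEquiv.symm_apply_apply]
    refine ⟨σ, fun z hz => ?_, ?_⟩
    · have h2 := hact σ ⟨z, hz⟩ (jC ⟨z, hz⟩) (by rw [h1]; exact hτ' _)
      exact h2.trans (hu ⟨z, hz⟩)
    · rw [hΘ, h1]
      have h2 : res τ = θ.symm g := by
        apply AlgEquiv.ext
        intro a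
        apply (algebraMap N N').injective
        rw [hres, hτ]
      rw [h2, MulEquiv.apply_symm_apply]

theorem SolvableBeyond.mono {π : Γ →* (L ≃ₐ[k] L)} {M M' : IntermediateField k (AlgebraicClosure k)}
    (h : M ≤ M') (hs : SolvableBeyond π M') : SolvableBeyond π M := by
  obtain ⟨θ, h1, h2, h3⟩ := hs
  refine ⟨θ, h1, h2, fun g hg => ?_⟩
  obtain ⟨σ, hσ, hσ'⟩ := h3 g hg
  exact ⟨σ, fun z hz => hσ z (h hz), hσ'⟩

/-- specialisation of a regular solution over a function field with the Hilbert property -/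
theorem beyond_of_regular [CharZero k] [FiniteDimensional k L] [IsGalois k L]
    (π : Γ →* (L ≃ₐ[k] L)) {S : Type} [Field S] [Algebra k S]
    (hS : ∃ F : Finset S, IntermediateField.adjoin k (F : Set S) = ⊤)
    (HP : ∀ (X : Scheme.{0}) [IsIntegral X] (p : X ⟶ Spec (CommRingCat.of k))
      [LocallyOfFiniteType p], HasFunctionField k X p S → HilbertProperty k X p)
    (h : RegularOver π S) (L' : IntermediateField k (AlgebraicClosure k))
    [FiniteDimensional k L'] : SolvableBeyond π L' := by
  classical
  obtain ⟨N, _, _, _, _, _, _, θ, hfin, hgal, hθ, hreg⟩ := h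
  have : CharZero S := charZero_of_injective_algebraMap (algebraMap k S).injective
  have : CharZero N := charZero_of_injective_algebraMap (algebraMap k N).injective
  let M : IntermediateField k (AlgebraicClosure k) :=
    IntermediateField.normalClosure k (L ⊔ L' : IntermediateField k (AlgebraicClosure k))
      (AlgebraicClosure k)
  have hM1 : FiniteDimensional k M := normalClosure.is_finiteDimensional k _ _
  have hM2 : Normal k M := normalClosure.normal k _ _
  have hM3 : IsGalois k M := { }
  have hLLM : L ⊔ L' ≤ M := IntermediateField.le_normalClosure _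
  have hLM : L ≤ M := le_sup_left.trans hLLM
  refine SolvableBeyond.mono (le_sup_right.trans hLLM : L' ≤ M) ?_
  obtain ⟨α, hα⟩ := Field.exists_primitive_element k M
  let A := AlgebraicClosure N
  have hA : IsGalois N A := { }
  obtain ⟨J, hJ⟩ := exists_ext (k := k) (L := L) (Ω := AlgebraicClosure k) (A := A)
    ((IsScalarTower.toAlgHom k N A).comp (IsScalarTower.toAlgHom k L N))
  replace hJ : ∀ y : L, J (y : AlgebraicClosure k) = algebraMap N A (algebraMap L N y) := hJ
  let JM : M →ₐ[k] A := J.comp M.val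
  let iN : N →ₐ[S] A := IsScalarTower.toAlgHom S N A
  have hJα : IsIntegral S (JM α) := ((Algebra.IsIntegral.isIntegral (R := k) α).map JM).tower_top
  let N₀ : IntermediateField S A := iN.fieldRange ⊔ IntermediateField.adjoin S {JM α}
  have h1 : FiniteDimensional S iN.fieldRange :=
    (AlgEquiv.ofInjectiveField iN).toLinearEquiv.finiteDimensional
  have h2 : FiniteDimensional S (IntermediateField.adjoin S {JM α}) :=
    IntermediateField.adjoin.finiteDimensional hJα
  have h3 : FiniteDimensional S N₀ := IntermediateField.finiteDimensional_sup _ _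
  let N' : IntermediateField S A := IntermediateField.normalClosure S N₀ A
  have h4 : FiniteDimensional S N' := normalClosure.is_finiteDimensional S N₀ A
  have h5 : Normal S N' := normalClosure.normal S N₀ A
  have h6 : IsGalois S N' := { }
  have h7 : N₀ ≤ N' := IntermediateField.le_normalClosure N₀
  let iN' : N →ₐ[S] N' := iN.codRestrict N'.toSubalgebra (fun a => h7 (le_sup_left
    (a := iN.fieldRange) ⟨a, rfl⟩))
  let _ : Algebra N N' := (iN' : N →+* N').toAlgebra
  have h8 : IsScalarTower S N N' := IsScalarTower.of_algebraMap_eq fun s => (iN'.commutes s).symm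
  have h9 : IsScalarTower k N N' := IsScalarTower.of_algebraMap_eq fun c => by
    apply Subtype.ext
    exact IsScalarTower.algebraMap_apply k N A c
  have hNN : ∀ a : N, ((algebraMap N N' a : N') : A) = algebraMap N A a := fun a => rfl
  have hJN : ∀ l : M, JM l ∈ N' := by
    have h10 : Algebra.adjoin k {α} ≤ (N'.restrictScalars k).toSubalgebra.comap JM := by
      rw [Algebra.adjoin_le_iff]
      intro x hx
      rw [Set.mem_singleton_iff.1 hx]
      exact h7 (le_sup_right (a := iN.fieldRange) (IntermediateField.mem_adjoin_simple_self S _))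
    have h11 : Algebra.adjoin k {α} = ⊤ := by
      rw [← IntermediateField.adjoin_simple_toSubalgebra_of_isAlgebraic
        (Algebra.IsAlgebraic.isAlgebraic α), hα, IntermediateField.top_toSubalgebra]
    intro l
    exact h10 (by rw [h11]; trivial)
  let j : M →ₐ[k] N' := JM.codRestrict (N'.restrictScalars k).toSubalgebra hJN
  have hjv : ∀ l, (j l : A) = J l := fun l => rfl
  refine beyond_core (N := N) (N' := N') π θ hθ hS HP M hLM j (fun z y hzy => ?_) fun g hg => ?_
  · apply Subtype.ext
    rw [hjv, hNN, hzy, hJ]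
  · -- lift the automorphism of `N` to `A`
    have hn : Normal S A := by
      have h10 : Algebra.IsAlgebraic S A := Algebra.IsAlgebraic.trans S N A
      have h11 : IsAlgClosure S A := ⟨inferInstance, h10⟩
      exact IsAlgClosure.normal S A
    let σ₀ : A ≃ₐ[S] A := (θ.symm g).liftNormal A
    have hσ₀ : ∀ a : N, σ₀ (algebraMap N A a) = algebraMap N A (θ.symm g a) := fun a =>
      AlgEquiv.liftNormal_commutes (θ.symm g) A a
    let σk : A ≃ₐ[k] A := σ₀.restrictScalars k
    let E : IntermediateField k A := JM.fieldRange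
    let ε : M ≃ₐ[k] E := AlgEquiv.ofInjectiveField JM
    have : FiniteDimensional k E := ε.toLinearEquiv.finiteDimensional
    have : IsGalois k E := IsGalois.of_algEquiv ε
    let r : E ≃ₐ[k] E := AlgEquiv.restrictNormalHom E σk
    have hr : ∀ z : E, (r z : A) = σ₀ z := fun z => AlgEquiv.restrictNormal_commutes σk E z
    have hrL : ∀ z : E, (z : A) ∈ con k L N A → r z = z := by
      intro z hz
      obtain ⟨y, hy⟩ := mem_con.1 hz
      apply Subtype.ext
      rw [hr, ← hy, hσ₀, hθ, MulEquiv.apply_symm_apply, (MonoidHom.mem_ker).1 hg]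
      rfl
    obtain ⟨τ, hτ, hτ'⟩ := exists_over_one (K := N) (A := A) hreg E r⁻¹ (fun z hz => by
      have h10 := hrL z hz
      exact (AlgEquiv.symm_apply_eq r).2 h10.symm)
    let τS : A ≃ₐ[S] A := AlgEquiv.ofRingEquiv (f := (τ : A ≃+* A)) (fun c => by
      change τ (algebraMap S A c) = _
      rw [IsScalarTower.algebraMap_apply S N A, hτ])
    let ω : A ≃ₐ[S] A := σ₀ * τS
    refine ⟨AlgEquiv.restrictNormalHom N' ω, fun a => ?_, fun z => ?_⟩
    · apply Subtype.ext
      rw [hNN, ← hσ₀]
      have h10 : ((AlgEquiv.restrictNormalHom N' ω (algebraMap N N' a) : N') : A) =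
        ω (algebraMap N N' a : N') := AlgEquiv.restrictNormal_commutes ω N' _
      rw [h10, hNN]
      change σ₀ (τ (algebraMap N A a)) = _
      rw [hτ]
    · apply Subtype.ext
      have h10 : ((AlgEquiv.restrictNormalHom N' ω (j z) : N') : A) = ω (j z : N') :=
        AlgEquiv.restrictNormal_commutes ω N' _
      rw [h10]
      change σ₀ (τ (JM z)) = JM z
      have h11 := hτ' (ε z)
      have h12 : ((ε z : E) : A) = JM z := rfl
      rw [h12] at h11
      rw [h11, ← hr]
      have h13 : r (r⁻¹ (ε z)) = ε z := r.apply_symm_apply _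
      rw [h13]
      rfl

end

end Pool.Agent.Helper44q.E
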